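import Mathlib
import Pool.Agent.Lib.MP_021685_agG.Defs

/-!
# Tate classes on products of varieties: all weights
-/

set_option autoImplicit false

open Polynomial Pool.Agent.Lib.MP_021685_agD Pool.Agent.Lib.MP_021685_agG

open scoped TensorProduct

namespace Pool.Agent.Lib.MP_021685_agW

/-- The generic `q`-Weil polynomials: the irreducible `q`-Weil polynomials `P` of positive degree
such that no root is `√q` times a root of unity and such that for every root `z` there is an
automorphism of the field of complex numbers which maps `z` to `q / z` and fixes all the roots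
different from `z` and `q / z`. -/
def genericC (q : ℕ) : Set ℤ[X] :=
  {P | (∃ g : ℕ, g ≠ 0 ∧ P ∈ weilPolys g q) ∧ Irreducible P ∧ ∀ z : ℂ, aeval z P = 0 →
    (∀ n : ℕ, n ≠ 0 → z ^ (2 * n) ≠ (q : ℂ) ^ n) ∧
      ∃ σ : ℂ ≃+* ℂ, z * σ z = q ∧ ∀ y : ℂ, aeval y P = 0 → y ≠ z → z * y ≠ q → σ y = y}

/-- The family `P k 1, ..., P k (r k)` is in `𝒢 (q ^ w k)` for `k = 1, ..., s`, and all the
`P k l` have pairwise different splitting fields. -/
def AllInW (𝒢 : ℕ → Set ℤ[X]) (q : ℕ) {s : ℕ} (w : Fin s → ℕ) {r : Fin s → ℕ}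
    (P : (k : Fin s) → Fin (r k) → ℤ[X]) : Prop :=
  (∀ k l, P k l ∈ 𝒢 (q ^ w k)) ∧
    ∀ k l k' l', rootField (P k l) = rootField (P k' l') →
      (⟨k, l⟩ : (k : Fin s) × Fin (r k)) = ⟨k', l'⟩

/-- `R ≠ 0`, and every complex root of `R` is a product (of any number of factors) of algebraic
numbers which are foreign to all the `P k l`. -/
def RootsForeignW {s : ℕ} {r : Fin s → ℕ} (P : (k : Fin s) → Fin (r k) → ℤ[X]) (R : ℤ[X]) : Prop :=
  R ≠ 0 ∧ ∀ z : ℂ, aeval z R = 0 →
    ∃ m : Multiset ℂ, m.prod = z ∧ ∀ b ∈ m, ∀ k l, Foreign (P k l) b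

section

variable {K : Type} [Field K] {V : Type} [AddCommGroup V] [Module K V] {s : ℕ}
  {U : Fin s → Type} [∀ k, AddCommGroup (U k)] [∀ k, Module K (U k)]

/-- The endomorphism `f ⊗ g 1 ⊗ ... ⊗ g s` of `V ⊗ U 1 ⊗ ... ⊗ U s`. -/
noncomputable def tensorEnd (f : Module.End K V) (g : ∀ k, Module.End K (U k)) :
    Module.End K (V ⊗[K] (⨂[K] k, U k)) :=
  TensorProduct.map f (PiTensorProduct.map g)

/-- The products `v ⊗ u 1 ⊗ ... ⊗ u s` with `v` in `A` and `u k` in `B k`. -/
def products (K : Type) [Field K] {V : Type} [AddCommGroup V] [Module K V] {s : ℕ}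
    {U : Fin s → Type} [∀ k, AddCommGroup (U k)] [∀ k, Module K (U k)] (A : Set V)
    (B : ∀ k, Set (U k)) : Set (V ⊗[K] (⨂[K] k, U k)) :=
  {ω | ∃ v ∈ A, ∃ u : ∀ k, U k, (∀ k, u k ∈ B k) ∧ ω = v ⊗ₜ[K] PiTensorProduct.tprod K u}

/-- Every element of `V ⊗ U 1 ⊗ ... ⊗ U s` which is multiplied by `c` by `f ⊗ g 1 ⊗ ... ⊗ g s` is a
linear combination of products `v ⊗ u 1 ⊗ ... ⊗ u s` with `v` in `A` and `u k` in `B k`. -/
def Decomposes (f : Module.End K V) (g : ∀ k, Module.End K (U k)) (c : K) (A : Set V)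
    (B : ∀ k, Set (U k)) : Prop :=
  ∀ ω : V ⊗[K] (⨂[K] k, U k), tensorEnd f g ω = c • ω → ω ∈ Submodule.span K (products K A B)

end

section

variable {K : Type} [Field K] {V : Type} [AddCommGroup V] [Module K V]
  {H : Type} [AddCommGroup H] [Module K H]

/-- The `v` which are multiplied by `q ^ (n * a)`, `i = 2 * a`, by `FY` (only `0` if `i` is
odd). -/
def classesY (q n i : ℕ) (FY : Module.End K V) : Set V :=
  {v | ∃ a, i = 2 * a ∧ FY v = (q : K) ^ (n * a) • v}

/-- The elements of `⋀^e H` which are polynomials in elements of `⋀^2 H` which are multiplied by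
`Q` by `F`. -/
def classesX (Q e : ℕ) (F : Module.End K H) : Set (⋀[K]^e H) :=
  {u | (u : ExteriorAlgebra K H) ∈ Algebra.adjoin K (tateClasses Q F 1 1)}

end

/-- If `i + w 1 * e 1 + ... + w s * e s = 2 * j` then every element of
`V ⊗ ⋀^(e 1) (H 1) ⊗ ... ⊗ ⋀^(e s) (H s)` which is multiplied by `q ^ (n * j)` by
`FY ⊗ ⋀^(e 1) (F 1) ^ n ⊗ ... ⊗ ⋀^(e s) (F s) ^ n` is a linear combination of products of classes
on the factors. (`V` is the cohomology in degree `i` of a smooth projective variety `Y` over the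
field with `q ^ n` elements, `H k` is a part of the cohomology in degree `w k` of a smooth
projective variety over the field with `q` elements, or a sum of copies of it.) -/
def ProductsSuffice {K : Type} [Field K] {V : Type} [AddCommGroup V] [Module K V] {s : ℕ}
    {H : Fin s → Type} [∀ k, AddCommGroup (H k)] [∀ k, Module K (H k)] (q n i : ℕ)
    (w : Fin s → ℕ) (FY : Module.End K V) (F : ∀ k, Module.End K (H k)) : Prop :=
  ∀ (e : Fin s → ℕ) (j : ℕ), i + ∑ k, w k * e k = 2 * j →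
    Decomposes FY (fun k => exteriorPower.map (e k) (F k ^ n)) ((q : K) ^ (n * j))
      (classesY q n i FY) (fun k => classesX (q ^ w k) (e k) (F k))

/-- `ProductsSuffice` whenever `n ≠ 0`, `FY` is killed by an `R` with `RootsForeignW P R` and
`F k` is killed by the product of the `P k l` for `k = 1, ..., s`. -/
def AddsNothingW (q : ℕ) {s : ℕ} (w : Fin s → ℕ) {r : Fin s → ℕ}
    (P : (k : Fin s) → Fin (r k) → ℤ[X]) : Prop :=
  ∀ (n i : ℕ) (R : ℤ[X]), n ≠ 0 → RootsForeignW P R →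
    ∀ (K : Type) [Field K] [CharZero K] (V : Type) [AddCommGroup V] [Module K V]
      (H : Fin s → Type) [∀ k, AddCommGroup (H k)] [∀ k, Module K (H k)]
      (FY : Module.End K V) (F : ∀ k, Module.End K (H k)),
      IsKilledBy FY R → (∀ k, IsKilledBy (F k) (∏ l, P k l)) → ProductsSuffice q n i w FY F

section

variable {s : ℕ} (w : Fin s → ℕ) {r : Fin s → ℕ} (g : (k : Fin s) → Fin (r k) → ℕ)

/-- `p ^ E k l m ≤ (q ^ w k) ^ (m / 2 - δ)` for `m = 1, ..., g k l` (here `E k l` is indexed by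
`m - 1`). -/
def BoundedW (δ : ℝ) (p q : ℕ) (E : (k : Fin s) → (l : Fin (r k)) → Fin (g k l) → ℕ) : Prop :=
  ∀ k, Bounded (g k) δ p (q ^ w k) (E k)

/-- The families `(P k l)` in the closed strata: `P k l` is a `q ^ w k`-Weil polynomial of degree
`2 * g k l` whose coefficient of degree `2 * g k l - m` is divisible by `p ^ E k l m` for
`m = 1, ..., g k l`. -/
def closedFamiliesW (p q : ℕ) (E : (k : Fin s) → (l : Fin (r k)) → Fin (g k l) → ℕ) :
    Set ((k : Fin s) → Fin (r k) → ℤ[X]) :=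
  {P | ∀ k, P k ∈ closedFamilies (g k) p (q ^ w k) (E k)}

/-- The families in the open strata: `p ^ E k l m` exactly divides these coefficients. -/
def openFamiliesW (p q : ℕ) (E : (k : Fin s) → (l : Fin (r k)) → Fin (g k l) → ℕ) :
    Set ((k : Fin s) → Fin (r k) → ℤ[X]) :=
  {P | ∀ k, P k ∈ openFamilies (g k) p (q ^ w k) (E k)}

/-- The families in the closed strata which are not `AllInW 𝒢` or have a member which splits
over the (arbitrary) number field `L`. -/
def badFamiliesW (𝒢 : ℕ → Set ℤ[X]) (L : IntermediateField ℚ ℂ) (p q : ℕ)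
    (E : (k : Fin s) → (l : Fin (r k)) → Fin (g k l) → ℕ) :
    Set ((k : Fin s) → Fin (r k) → ℤ[X]) :=
  {P | P ∈ closedFamiliesW w g p q E ∧ ¬ (AllInW 𝒢 q w P ∧ ∀ k l, ¬ rootField (P k l) ≤ L)}

end

end Pool.Agent.Lib.MP_021685_agW
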