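import Mathlib
import Pool.Agent.Lib.MP_021685_agG.RelC

/-!
# Relations between the roots of generic polynomials of several weights and foreign numbers
-/

set_option autoImplicit false

open Polynomial NumberField Pool.Agent.Lib.MP_021685_ag Pool.Agent.Lib.MP_021685_agD

namespace Pool.Agent.Lib.MP_021685_agG

/-- The weights may be different: the roots of `P k` have absolute value `q ^ (w k / 2)`. -/
theorem relM_aux {ι : Type*} [DecidableEq ι] {q : ℕ} (hq : q ≠ 0) (w : ι → ℕ)
    (hw : ∀ k, w k ≠ 0) (P : ι → ℤ[X]) (hG : ∀ k, P k ∈ generic (q ^ w k))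
    (hne : ∀ k l, k ≠ l → rootField (P k) ≠ rootField (P l))
    (d : ι → ℂ → ℕ) (m : ℕ) (hm : m ≠ 0) (I : Finset ι) :
    ∀ (s : Multiset ℂ) (N : ℕ), (∀ b ∈ s, b ≠ 0 ∧ ∀ k ∈ I, Foreign (P k) b) →
      s.prod * (∏ k ∈ I, ∏ z ∈ zeros (P k), z ^ d k z) ^ m = (q : ℂ) ^ N →
      ∀ k ∈ I, ∀ x y : ℂ, aeval x (P k) = 0 → x * y = (q : ℂ) ^ w k → d k x = d k y := by
  classical
  have hP0 : ∀ k, P k ≠ 0 := fun k => (generic_monic (hG k)).ne_zero
  have hqw : ∀ k, q ^ w k ≠ 0 := fun k => pow_ne_zero _ hq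
  induction I using Finset.strongInduction with
  | H I ih =>
    intro s N hs hrel
    by_cases hI : I.Nonempty
    · obtain ⟨i, hi, himax⟩ := Finset.exists_maximalFor (fun k => rootField (P k)) I hI
      have hnle : ∀ j ∈ I, j ≠ i → ¬ rootField (P i) ≤ rootField (P j) := by
        intro j hj hji hle
        exact hne i j hji.symm (le_antisymm hle (himax hj hle))
      set J := I.erase i with hJ
      set t : Multiset ℂ := ∑ k ∈ J, ∑ z ∈ zeros (P k), Multiset.replicate (d k z * m) z with ht
      have htprod : t.prod = (∏ k ∈ J, ∏ z ∈ zeros (P k), z ^ d k z) ^ m := by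
        rw [ht, Multiset.prod_sum, ← Finset.prod_pow]
        refine Finset.prod_congr rfl fun k _ => ?_
        rw [Multiset.prod_sum, ← Finset.prod_pow]
        refine Finset.prod_congr rfl fun z _ => ?_
        rw [Multiset.prod_replicate, pow_mul]
      have htmem : ∀ b ∈ t, b ≠ 0 ∧ Foreign (P i) b := by
        intro b hb
        rw [ht, Multiset.mem_sum] at hb
        obtain ⟨k, hk, hb⟩ := hb
        rw [Multiset.mem_sum] at hb
        obtain ⟨z, hz, hb⟩ := hb
        have hbz : b = z := Multiset.eq_of_mem_replicate hb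
        rw [mem_zeros (hP0 k)] at hz
        rw [hbz]
        have hk1 := Finset.mem_erase.1 hk
        refine ⟨?_, foreign_of_not_le (hP0 k) (hnle k hk1.2 hk1.1) hz⟩
        rintro rfl
        have h2 := generic_norm (hG k) hz
        rw [norm_zero] at h2
        apply hqw k
        have h3 : ((q ^ w k : ℕ) : ℝ) = 0 := by rw [← h2]; norm_num
        exact_mod_cast h3
      -- multiply with a power of `q`
      set M : ℕ := N * (w i - 1) with hM
      have hwi : w i = (w i - 1) + 1 := by
        have := hw i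
        omega
      have hqM : (q : ℂ) ^ N * (q : ℂ) ^ M = ((q ^ w i : ℕ) : ℂ) ^ N := by
        rw [Nat.cast_pow, ← pow_mul, ← pow_add, hM]
        congr 1
        conv_rhs => rw [hwi]
        ring
      have hrel1 : (s + t + Multiset.replicate M (q : ℂ)).prod *
          (∏ z ∈ zeros (P i), z ^ d i z) ^ m = ((q ^ w i : ℕ) : ℂ) ^ N := by
        rw [Multiset.prod_add, Multiset.prod_add, htprod, Multiset.prod_replicate, ← hqM, ← hrel,
          ← Finset.mul_prod_erase I _ hi, mul_pow]
        ring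
      obtain ⟨h1, a, ha⟩ := single (hqw i) (hG i) (s + t + Multiset.replicate M (q : ℂ)) (by
        intro b hb
        rcases Multiset.mem_add.1 hb with hb | hb
        · rcases Multiset.mem_add.1 hb with hb | hb
          · exact ⟨(hs b hb).1, (hs b hb).2 i hi⟩
          · exact htmem b hb
        · rw [Multiset.eq_of_mem_replicate hb]
          exact foreign_natCast hq (hG i)) (d i) m N hm hrel1
      have h2 := ih J (Finset.erase_ssubset hi)
        (s + Multiset.replicate (w i * a * m) (q : ℂ)) N (by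
          intro b hb
          rcases Multiset.mem_add.1 hb with hb | hb
          · exact ⟨(hs b hb).1, fun k hk => (hs b hb).2 k (Finset.mem_of_mem_erase hk)⟩
          · rw [Multiset.eq_of_mem_replicate hb]
            exact ⟨by exact_mod_cast hq, fun k _ => (foreign_natCast hq (hG k)).2⟩) (by
          rw [Multiset.prod_add, Multiset.prod_replicate, ← hrel, ← Finset.mul_prod_erase I _ hi,
            mul_pow, ha, Nat.cast_pow, ← pow_mul, ← pow_mul, mul_assoc, mul_assoc (w i)])
      intro k hk x y hx hxy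
      by_cases hki : k = i
      · rw [hki] at hx hxy
        rw [hki]
        exact h1 x y hx (by rw [hxy, Nat.cast_pow])
      · exact h2 k (Finset.mem_erase.2 ⟨hki, hk⟩) x y hx hxy
    · intro k hk
      exact absurd ⟨k, hk⟩ hI


/-- The families of one weight are grouped: `P k 1, ..., P k (r k)` are of weight `w k`. -/
theorem relM {s q : ℕ} (hq : q ≠ 0) (w r : Fin s → ℕ) (hw : ∀ k, w k ≠ 0)
    (P : (k : Fin s) → Fin (r k) → ℤ[X]) (hG : ∀ k l, P k l ∈ generic (q ^ w k))
    (hne : Function.Injective fun a : (k : Fin s) × Fin (r k) => rootField (P a.1 a.2))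
    (b : Multiset ℂ) (hb : ∀ x ∈ b, x ≠ 0 ∧ ∀ k l, Foreign (P k l) x) (d : Fin s → ℂ → ℕ)
    (m N : ℕ) (hm : m ≠ 0)
    (hrel : b.prod * (∏ k, ∏ z ∈ zeros (∏ l, P k l), z ^ d k z) ^ m = (q : ℂ) ^ N)
    (k : Fin s) (x y : ℂ) (hx : aeval x (∏ l, P k l) = 0) (hxy : x * y = (q : ℂ) ^ w k) :
    d k x = d k y := by
  classical
  have hP0 : ∀ k l, P k l ≠ 0 := fun k l => (generic_monic (hG k l)).ne_zero
  have hR0 : ∀ k, (∏ l, P k l) ≠ 0 := fun k => Finset.prod_ne_zero_iff.2 fun l _ => hP0 k l
  have hU : ∀ k, zeros (∏ l, P k l) = Finset.univ.biUnion fun l => zeros (P k l) := by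
    intro k
    ext z
    rw [mem_zeros (hR0 k), map_prod, Finset.prod_eq_zero_iff, Finset.mem_biUnion]
    exact exists_congr fun l => and_congr Iff.rfl (mem_zeros (hP0 k l)).symm
  have hprod : ∀ k, ∏ z ∈ zeros (∏ l, P k l), z ^ d k z =
      ∏ l, ∏ z ∈ zeros (P k l), z ^ d k z := by
    intro k
    rw [hU, Finset.prod_biUnion]
    intro l _ l' _ hll
    rw [Function.onFun, Finset.disjoint_left]
    intro z h1 h2
    rw [mem_zeros (hP0 _ _)] at h1 h2
    have h3 := hne (a₁ := ⟨k, l⟩) (a₂ := ⟨k, l'⟩)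
      (le_antisymm (rootField_le (hG k l) h1 h2) (rootField_le (hG k l') h2 h1))
    exact hll (by simpa using h3)
  rw [map_prod, Finset.prod_eq_zero_iff] at hx
  obtain ⟨l, -, hl⟩ := hx
  refine relM_aux (ι := (k : Fin s) × Fin (r k)) hq (fun a => w a.1) (fun a => hw a.1)
    (fun a => P a.1 a.2) (fun a => hG a.1 a.2) (fun a a' haa h => haa (hne h)) (fun a => d a.1) m hm
    Finset.univ b N (fun x hx => ⟨(hb x hx).1, fun a _ => (hb x hx).2 a.1 a.2⟩) ?_ ⟨k, l⟩
    (Finset.mem_univ _) x y hl hxy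
  rw [← hrel, Fintype.prod_sigma]
  simp only [hprod]

end Pool.Agent.Lib.MP_021685_agG
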