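import Mathlib
import Pool.Agent.Lib.MP_021685_agG.LinY

/-!
# Several commuting operators

Let `A` and `Z k` be commuting operators, `G k` separable polynomials with `G k (Z k) ω = 0` and
`R (A) ω = 0`, and suppose that the product of `A` and all the `Z k` multiplies `ω` by `c ≠ 0`. If all
the tuples `(α, l)` of roots of `R` and of the `G k` with product `c` have the same component
`l k₀ = c₀`, then `Z k₀ ω = c₀ ω`.
-/

set_option autoImplicit false

open Polynomial

open scoped TensorProduct

namespace Pool.Agent.Lib.MP_021685_agG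

theorem commute_aeval {K E : Type*} [Field K] [Ring E] [Algebra K E] {B Z : E} (h : Commute B Z)
    (p : K[X]) : Commute B (aeval Z p) := by
  induction p using Polynomial.induction_on' with
  | add p q hp hq => rw [map_add]; exact hp.add_right hq
  | monomial n a =>
    rw [aeval_monomial]
    have h1 : Commute B (algebraMap K E a) := (Algebra.commutes a B).symm
    exact h1.mul_right (h.pow_right n)

/-- The Lagrange polynomials. -/
theorem exists_lagrange {K : Type*} [Field K] [DecidableEq K] (Λ : Finset K) (hΛ : Λ.Nonempty) :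
    ∃ p : K → K[X], ∑ l ∈ Λ, p l = 1 ∧ ∀ l ∈ Λ, ∏ x ∈ Λ, (X - C x) ∣ (X - C l) * p l := by
  refine ⟨fun l => Lagrange.basis Λ id l, ?_, ?_⟩
  · exact Lagrange.sum_basis (Set.injOn_id _) hΛ
  · intro l hl
    rw [← Finset.mul_prod_erase Λ _ hl]
    refine mul_dvd_mul_left _ ?_
    change _ ∣ ∏ j ∈ Λ.erase l, Lagrange.basisDivisor (id l) (id j)
    refine Finset.prod_dvd_prod_of_dvd _ _ fun j _ => ?_
    unfold Lagrange.basisDivisor
    exact dvd_mul_left _ _

/-- A vector killed by a product of different linear factors in `Z` is the sum of eigenvectors which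
are polynomials in `Z` applied to it. -/
theorem exists_decomp {K : Type*} [Field K] [DecidableEq K] {W : Type*} [AddCommGroup W]
    [Module K W] (Z : Module.End K W) (Λ : Finset K) (ω : W)
    (h : aeval Z (∏ x ∈ Λ, (X - C x)) ω = 0) :
    ∃ p : K → K[X], ω = ∑ l ∈ Λ, aeval Z (p l) ω ∧
      ∀ l ∈ Λ, Z (aeval Z (p l) ω) = l • aeval Z (p l) ω := by
  by_cases hΛ : Λ.Nonempty
  · obtain ⟨p, hp1, hp2⟩ := exists_lagrange Λ hΛ
    refine ⟨p, ?_, ?_⟩
    · rw [← LinearMap.sum_apply, ← map_sum, hp1, map_one, Module.End.one_apply]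
    · intro l hl
      obtain ⟨g, hg⟩ := hp2 l hl
      have h1 : aeval Z ((X - C l) * p l) ω = 0 := by
        rw [hg, mul_comm, map_mul, Module.End.mul_apply, h, map_zero]
      rw [map_mul, Module.End.mul_apply, map_sub, aeval_X, aeval_C, LinearMap.sub_apply,
        sub_eq_zero] at h1
      rw [h1]
      rfl
  · rw [Finset.not_nonempty_iff_eq_empty] at hΛ
    subst hΛ
    rw [Finset.prod_empty, map_one, Module.End.one_apply] at h
    refine ⟨0, ?_, fun l hl => absurd hl (Finset.notMem_empty _)⟩
    rw [Finset.sum_empty, h]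

/-- If there is no compatible tuple of eigenvalues, the vector is zero. -/
theorem multi_zero {K : Type*} [Field K] [DecidableEq K] {W : Type*} [AddCommGroup W] [Module K W]
    {ι : Type*} [Fintype ι] [DecidableEq ι] (A : Module.End K W) (Z : ι → Module.End K W)
    (hAZ : ∀ k, Commute A (Z k)) (hZZ : ∀ k l, Commute (Z k) (Z l)) (T : Module.End K W)
    (hTZ : ∀ k, Commute T (Z k))
    (hT : ∀ (ξ : W) (l : ι → K), (∀ k, Z k ξ = l k • ξ) → T ξ = (∏ k, l k) • A ξ)
    (R : K[X]) (Λ : ι → Finset K) (c : K) (hc : c ≠ 0) (I : Finset ι) :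
    ∀ (ω : W) (l : ι → K), aeval A R ω = 0 → (∀ k, aeval (Z k) (∏ x ∈ Λ k, (X - C x)) ω = 0) →
      T ω = c • ω → (∀ k ∉ I, Z k ω = l k • ω) →
      (∀ (α : K) (l' : ι → K), R.eval α = 0 → (∀ k, l' k ∈ Λ k) → α * ∏ k, l' k = c →
        (∀ k ∉ I, l' k = l k) → False) → ω = 0 := by
  have hcomm : ∀ (B : Module.End K W) (k : ι) (p : K[X]), Commute B (Z k) → ∀ ω : W,
      B (aeval (Z k) p ω) = aeval (Z k) p (B ω) := by
    intro B k p hB ω
    have h1 : Commute B (aeval (Z k) p) := commute_aeval hB p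
    have h2 := congrArg (fun f : Module.End K W => f ω) h1.eq
    exact h2
  induction I using Finset.induction with
  | empty =>
    intro ω l hR hZ hTω hl hno
    by_contra hω
    have hl' : ∀ k, Z k ω = l k • ω := fun k => hl k (Finset.notMem_empty k)
    have haev : ∀ (B : Module.End K W) (a : K), B ω = a • ω → ∀ p : K[X],
        aeval B p ω = p.eval a • ω := by
      intro B a hB p
      induction p using Polynomial.induction_on' with
      | add p q hp hq => rw [map_add, LinearMap.add_apply, hp, hq, eval_add, add_smul]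
      | monomial n b =>
        have h1 : ∀ m : ℕ, (B ^ m) ω = a ^ m • ω := by
          intro m
          induction m with
          | zero => rw [pow_zero, pow_zero, one_smul, Module.End.one_apply]
          | succ m ih => rw [pow_succ, Module.End.mul_apply, hB, map_smul, ih, smul_smul, pow_succ,
              mul_comm]
        rw [aeval_monomial, Module.End.mul_apply, h1, eval_monomial, mul_smul, map_smul,
          Module.algebraMap_end_apply, smul_comm]
    have hmem : ∀ k, l k ∈ Λ k := by
      intro k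
      have h1 := hZ k
      rw [haev _ _ (hl' k), smul_eq_zero] at h1
      rcases h1 with h1 | h1
      · rw [eval_prod, Finset.prod_eq_zero_iff] at h1
        obtain ⟨x, hx, hx0⟩ := h1
        rw [eval_sub, eval_X, eval_C, sub_eq_zero] at hx0
        rw [hx0]
        exact hx
      · exact absurd h1 hω
    have h2 := hT ω l hl'
    rw [hTω] at h2
    have hprod : ∏ k, l k ≠ 0 := by
      intro h0
      rw [h0, zero_smul, smul_eq_zero] at h2
      rcases h2 with h2 | h2
      · exact hc h2
      · exact hω h2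
    have hAω : A ω = (c / ∏ k, l k) • ω := by
      rw [div_eq_inv_mul, mul_smul, h2, smul_smul, inv_mul_cancel₀ hprod, one_smul]
    have h3 := hR
    rw [haev _ _ hAω, smul_eq_zero] at h3
    rcases h3 with h3 | h3
    · exact hno _ l h3 hmem (div_mul_cancel₀ c hprod) fun k _ => rfl
    · exact hω h3
  | insert k I hk ih =>
    intro ω l hR hZ hTω hl hno
    obtain ⟨p, hp1, hp2⟩ := exists_decomp (Z k) (Λ k) ω (hZ k)
    rw [hp1]
    refine Finset.sum_eq_zero fun x hx => ?_
    refine ih _ (Function.update l k x) ?_ ?_ ?_ ?_ ?_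
    · have hAR : Commute (aeval A R) (Z k) := (commute_aeval (hAZ k).symm R).symm
      rw [hcomm _ k _ hAR, hR, map_zero]
    · intro j
      have hjk : Commute (aeval (Z j) (∏ x ∈ Λ j, (X - C x))) (Z k) :=
        (commute_aeval (hZZ k j) _).symm
      rw [hcomm _ k _ hjk, hZ j, map_zero]
    · rw [hcomm _ k _ (hTZ k), hTω, map_smul]
    · intro j hj
      by_cases hjk : j = k
      · subst hjk
        rw [Function.update_self]
        exact hp2 x hx
      · rw [Function.update_of_ne hjk, hcomm _ k _ (hZZ j k), hl j (by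
          rw [Finset.mem_insert, not_or]
          exact ⟨hjk, hj⟩), map_smul]
    · intro α l' hα hl' hprod hll'
      refine hno α l' hα hl' hprod fun j hj => ?_
      rw [Finset.mem_insert, not_or] at hj
      rw [hll' j hj.2, Function.update_of_ne hj.1]

/-- The eigenvalue of `Z k₀` over a field where the polynomials split. -/
theorem multi_eig_split {K : Type*} [Field K] [DecidableEq K] {W : Type*} [AddCommGroup W]
    [Module K W] {ι : Type*} [Fintype ι] [DecidableEq ι] (A : Module.End K W)
    (Z : ι → Module.End K W) (hAZ : ∀ k, Commute A (Z k)) (hZZ : ∀ k l, Commute (Z k) (Z l))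
    (T : Module.End K W) (hTZ : ∀ k, Commute T (Z k))
    (hT : ∀ (ξ : W) (l : ι → K), (∀ k, Z k ξ = l k • ξ) → T ξ = (∏ k, l k) • A ξ)
    (R : K[X]) (Λ : ι → Finset K) (c : K) (hc : c ≠ 0) (ω : W) (hR : aeval A R ω = 0)
    (hZ : ∀ k, aeval (Z k) (∏ x ∈ Λ k, (X - C x)) ω = 0) (hTω : T ω = c • ω) (k₀ : ι) (c₀ : K)
    (hno : ∀ (α : K) (l : ι → K), R.eval α = 0 → (∀ k, l k ∈ Λ k) → α * ∏ k, l k = c →
      l k₀ = c₀) : Z k₀ ω = c₀ • ω := by
  obtain ⟨p, hp1, hp2⟩ := exists_decomp (Z k₀) (Λ k₀) ω (hZ k₀)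
  have hcomm : ∀ (B : Module.End K W) (k : ι) (p : K[X]), Commute B (Z k) → ∀ ω : W,
      B (aeval (Z k) p ω) = aeval (Z k) p (B ω) := by
    intro B k p hB ω
    exact congrArg (fun f : Module.End K W => f ω) (commute_aeval hB p).eq
  have h0 : ∀ x ∈ Λ k₀, x ≠ c₀ → aeval (Z k₀) (p x) ω = 0 := by
    intro x hx hxc
    refine multi_zero A Z hAZ hZZ T hTZ hT R Λ c hc (Finset.univ.erase k₀) _ (fun _ => x)
      ?_ ?_ ?_ ?_ ?_
    · rw [hcomm _ k₀ _ (commute_aeval (hAZ k₀).symm R).symm, hR, map_zero]
    · intro j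
      rw [hcomm _ k₀ _ (commute_aeval (hZZ k₀ j) _).symm, hZ j, map_zero]
    · rw [hcomm _ k₀ _ (hTZ k₀), hTω, map_smul]
    · intro j hj
      have hjk : j = k₀ := by
        by_contra hne
        exact hj (Finset.mem_erase.2 ⟨hne, Finset.mem_univ j⟩)
      rw [hjk]
      exact hp2 x hx
    · intro α l' hα hl' hprod hll'
      apply hxc
      rw [← hno α l' hα hl' hprod]
      exact (hll' k₀ (Finset.notMem_erase _ _)).symm
  have h1 : ∀ x ∈ Λ k₀, Z k₀ (aeval (Z k₀) (p x) ω) = c₀ • aeval (Z k₀) (p x) ω := by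
    intro x hx
    by_cases hxc : x = c₀
    · rw [← hxc]
      exact hp2 x hx
    · rw [h0 x hx hxc, map_zero, smul_zero]
  calc Z k₀ ω = Z k₀ (∑ l ∈ Λ k₀, aeval (Z k₀) (p l) ω) := by rw [← hp1]
    _ = ∑ l ∈ Λ k₀, c₀ • aeval (Z k₀) (p l) ω := by
        rw [map_sum]
        exact Finset.sum_congr rfl h1
    _ = c₀ • ω := by rw [← Finset.smul_sum, ← hp1]

/-- The eigenvalue of `Z k₀`. -/
theorem multi_eig {K : Type*} [Field K] {W : Type*} [AddCommGroup W] [Module K W]
    {ι : Type*} [Fintype ι] [DecidableEq ι] (A : Module.End K W) (Z : ι → Module.End K W)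
    (hAZ : ∀ k, Commute A (Z k)) (hZZ : ∀ k l, Commute (Z k) (Z l))
    (T : Finset ι → Module.End K W) (hT0 : T ∅ = A)
    (hT1 : ∀ k I, k ∉ I → T (insert k I) = Z k * T I)
    (R : K[X]) (G : ι → K[X]) (hsep : ∀ k, (G k).Separable) (c : K) (hc : c ≠ 0) (ω : W)
    (hR : aeval A R ω = 0) (hG : ∀ k, aeval (Z k) (G k) ω = 0) (hω : T Finset.univ ω = c • ω)
    (k₀ : ι) (c₀ : K)
    (hno : ∀ (α : AlgebraicClosure K) (l : ι → AlgebraicClosure K), aeval α R = 0 →
      (∀ k, aeval (l k) (G k) = 0) → α * ∏ k, l k = algebraMap K (AlgebraicClosure K) c →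
      l k₀ = algebraMap K (AlgebraicClosure K) c₀) : Z k₀ ω = c₀ • ω := by
  classical
  let L := AlgebraicClosure K
  let φ : Module.End K W →ₐ[K] Module.End L (L ⊗[K] W) := Module.End.baseChangeHom K L W
  have hφ : ∀ (f : Module.End K W) (w : W), φ f ((1 : L) ⊗ₜ[K] w) = (1 : L) ⊗ₜ[K] f w := by
    intro f w
    rfl
  have hcomm : ∀ f g : Module.End K W, Commute f g → Commute (φ f) (φ g) := fun f g h => h.map φ
  have hTL : ∀ (ξ : L ⊗[K] W) (l : ι → L), (∀ k, φ (Z k) ξ = l k • ξ) → ∀ I : Finset ι,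
      φ (T I) ξ = (∏ k ∈ I, l k) • φ A ξ := by
    intro ξ l hl I
    induction I using Finset.induction with
    | empty => rw [hT0, Finset.prod_empty, one_smul]
    | insert k I hk ih =>
      rw [hT1 k I hk, map_mul, Module.End.mul_apply, ih, Finset.prod_insert hk, map_smul]
      have h1 : φ (Z k) (φ A ξ) = l k • φ A ξ := by
        rw [← Module.End.mul_apply, ← (hcomm _ _ (hAZ k)).eq, Module.End.mul_apply, hl k, map_smul]
      rw [h1, smul_smul, mul_comm (l k)]
  have hTZ : ∀ I k, Commute (T I) (Z k) := by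
    intro I
    induction I using Finset.induction with
    | empty => intro k; rw [hT0]; exact hAZ k
    | insert j I hj ih =>
      intro k
      rw [hT1 j I hj]
      exact (hZZ j k).mul_left (ih k)
  have haev : ∀ (f : Module.End K W) (p : K[X]) (w : W),
      aeval (φ f) (p.map (algebraMap K L)) ((1 : L) ⊗ₜ[K] w) = (1 : L) ⊗ₜ[K] aeval f p w := by
    intro f p w
    rw [aeval_map_algebraMap, aeval_algHom_apply, hφ]
  have key := multi_eig_split (K := L) (φ A) (fun k => φ (Z k)) (fun k => hcomm _ _ (hAZ k))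
    (fun k l => hcomm _ _ (hZZ k l)) (φ (T Finset.univ)) (fun k => hcomm _ _ (hTZ _ k))
    (fun ξ l hl => hTL ξ l hl Finset.univ) (R.map (algebraMap K L))
    (fun k => ((G k).map (algebraMap K L)).roots.toFinset) (algebraMap K L c)
    ((_root_.map_ne_zero _).2 hc) ((1 : L) ⊗ₜ[K] ω) (by rw [haev, hR, TensorProduct.tmul_zero]) (by
      intro k
      have h1 : (G k).map (algebraMap K L) ≠ 0 := Polynomial.map_ne_zero (hsep k).ne_zero
      have h2 : ((G k).map (algebraMap K L)).Splits := IsAlgClosed.splits _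
      have h3 : ((G k).map (algebraMap K L)).roots.Nodup := nodup_roots (hsep k).map
      have h4 : (G k).map (algebraMap K L) = C ((G k).map (algebraMap K L)).leadingCoeff *
          ∏ x ∈ ((G k).map (algebraMap K L)).roots.toFinset, (X - C x) := by
        conv_lhs => rw [h2.eq_prod_roots]
        congr 1
        rw [Finset.prod, Multiset.toFinset_val, Multiset.dedup_eq_self.2 h3]
      have h5 : aeval (φ (Z k)) ((G k).map (algebraMap K L)) ((1 : L) ⊗ₜ[K] ω) = 0 := by
        rw [haev, hG, TensorProduct.tmul_zero]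
      rw [h4, map_mul, aeval_C, Module.End.mul_apply, Module.algebraMap_end_apply,
        smul_eq_zero] at h5
      rcases h5 with h5 | h5
      · exact absurd (leadingCoeff_eq_zero.1 h5) h1
      · exact h5) (by
      rw [hφ, hω, TensorProduct.tmul_smul, algebraMap_smul]) k₀ (algebraMap K L c₀) (by
      intro α l hα hl hprod
      refine hno α l ?_ (fun k => ?_) hprod
      · rw [← eval_map_algebraMap]
        exact hα
      · have h1 := hl k
        rw [Multiset.mem_toFinset, mem_roots', IsRoot.def, eval_map_algebraMap] at h1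
        exact h1.2)
  have h1 : (1 : L) ⊗ₜ[K] (Z k₀ ω) = (1 : L) ⊗ₜ[K] (c₀ • ω) := by
    rw [← hφ, key, TensorProduct.tmul_smul, algebraMap_smul]
  exact Module.FaithfullyFlat.tensorProduct_mk_injective (A := K) (B := L) W h1

end Pool.Agent.Lib.MP_021685_agG
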