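import Mathlib
import Pool.Agent.Lib.MP_021685_agW.Multi

/-!
# Eigenvectors in a tensor product of several spaces
-/

set_option autoImplicit false
set_option linter.unusedSectionVars false

open Polynomial

open scoped TensorProduct

namespace Pool.Agent.Lib.MP_021685_agG

section

variable {K : Type*} [Field K] {V : Type*} [AddCommGroup V] [Module K V]
  {ι : Type*} [DecidableEq ι] {U : ι → Type*} [∀ k, AddCommGroup (U k)] [∀ k, Module K (U k)]

/-- The operator `1 ⊗ (f 1 ⊗ ... ⊗ f s)`. -/
noncomputable def pt (V : Type*) [AddCommGroup V] [Module K V] (f : ∀ k, Module.End K (U k)) :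
    Module.End K (V ⊗[K] (⨂[K] k, U k)) :=
  TensorProduct.map LinearMap.id (PiTensorProduct.map f)

theorem pt_mul (f h : ∀ k, Module.End K (U k)) : pt V (f * h) = pt V f * pt V h := by
  unfold pt
  have h1 : PiTensorProduct.map (f * h) = PiTensorProduct.map f * PiTensorProduct.map h :=
    PiTensorProduct.map_mul f h
  rw [h1]
  apply TensorProduct.ext'
  intro v u
  simp

theorem pt_one : pt V (1 : ∀ k, Module.End K (U k)) = 1 := by
  unfold pt
  have h1 : PiTensorProduct.map (1 : ∀ k, Module.End K (U k)) = 1 := PiTensorProduct.map_one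
  rw [h1]
  apply TensorProduct.ext'
  intro v u
  simp

/-- The operator `f` on the `k`-th factor. -/
noncomputable def sl (V : Type*) [AddCommGroup V] [Module K V] (k : ι) (f : Module.End K (U k)) :
    Module.End K (V ⊗[K] (⨂[K] k, U k)) :=
  pt V (Function.update 1 k f)

theorem sl_mul (k : ι) (f h : Module.End K (U k)) : sl V k (f * h) = sl V k f * sl V k h := by
  unfold sl
  rw [← pt_mul]
  congr 1
  funext j
  by_cases hj : j = k
  · subst hj
    simp
  · simp [Function.update_of_ne hj]

theorem sl_one (k : ι) : sl V k (1 : Module.End K (U k)) = 1 := by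
  unfold sl
  have h1 : Function.update (1 : ∀ k, Module.End K (U k)) k 1 = 1 :=
    Function.update_eq_self k (1 : ∀ k, Module.End K (U k))
  rw [h1, pt_one]

theorem sl_add (k : ι) (f h : Module.End K (U k)) : sl V k (f + h) = sl V k f + sl V k h := by
  unfold sl pt
  rw [PiTensorProduct.map_update_add, TensorProduct.map_add_right]

theorem sl_smul (k : ι) (c : K) (f : Module.End K (U k)) : sl V k (c • f) = c • sl V k f := by
  unfold sl pt
  rw [PiTensorProduct.map_update_smul, TensorProduct.map_smul_right]

theorem sl_pow (k : ι) (f : Module.End K (U k)) (n : ℕ) : sl V k (f ^ n) = sl V k f ^ n := by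
  induction n with
  | zero => rw [pow_zero, pow_zero, sl_one]
  | succ n ih => rw [pow_succ, pow_succ, sl_mul, ih]

theorem aeval_sl (k : ι) (f : Module.End K (U k)) (p : K[X]) :
    aeval (sl V k f) p = sl V k (aeval f p) := by
  induction p using Polynomial.induction_on' with
  | add p q hp hq => rw [map_add, map_add, hp, hq, sl_add]
  | monomial n a =>
    rw [← C_mul_X_pow_eq_monomial, ← smul_eq_C_mul, map_smul, map_smul, map_pow, map_pow, aeval_X,
      aeval_X, sl_smul, sl_pow]

theorem sl_comm (j k : ι) (f : Module.End K (U j)) (h : Module.End K (U k)) (hjk : j ≠ k) :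
    Commute (sl V j f) (sl V k h) := by
  unfold sl
  rw [Commute, SemiconjBy, ← pt_mul, ← pt_mul]
  congr 1
  funext i
  by_cases hi : i = j
  · subst hi
    simp [Function.update_of_ne hjk]
  · simp [Function.update_of_ne hi]

theorem sl_comm' (g : ∀ k, Module.End K (U k)) (j k : ι) :
    Commute (sl V j (g j)) (sl V k (g k)) := by
  by_cases h : j = k
  · subst h
    exact Commute.refl _
  · exact sl_comm j k _ _ h

/-- The operator `f` on `V`. -/
noncomputable def fr (U : ι → Type*) [∀ k, AddCommGroup (U k)] [∀ k, Module K (U k)]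
    (f : Module.End K V) : Module.End K (V ⊗[K] (⨂[K] k, U k)) :=
  TensorProduct.map f LinearMap.id

theorem fr_pt (f : Module.End K V) (g : ∀ k, Module.End K (U k)) :
    fr U f * pt V g = TensorProduct.map f (PiTensorProduct.map g) ∧
      pt V g * fr U f = TensorProduct.map f (PiTensorProduct.map g) := by
  unfold fr pt
  constructor
  · apply TensorProduct.ext'
    intro v u
    simp
  · apply TensorProduct.ext'
    intro v u
    simp

theorem fr_comm (f : Module.End K V) (k : ι) (g : Module.End K (U k)) :
    Commute (fr U f) (sl V k g) := by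
  unfold sl
  rw [Commute, SemiconjBy, (fr_pt f _).1, (fr_pt f _).2]

/-- A vector in the image of `1 ⊗ (f 1 ⊗ ... ⊗ f s)`. -/
theorem pt_mem_span (f : ∀ k, Module.End K (U k)) (v : V) (u : ⨂[K] k, U k) :
    pt V f (v ⊗ₜ[K] u) ∈ Submodule.span K {ω' | ∃ x : ∀ k, U k,
      ω' = v ⊗ₜ[K] PiTensorProduct.tprod K fun k => f k (x k)} := by
  have h1 : u ∈ Submodule.span K (Set.range (PiTensorProduct.tprod K (s := U))) := by
    rw [PiTensorProduct.span_tprod_eq_top]
    exact Submodule.mem_top
  unfold pt
  rw [TensorProduct.map_tmul, LinearMap.id_apply]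
  induction h1 using Submodule.span_induction with
  | mem x hx =>
    obtain ⟨y, rfl⟩ := hx
    rw [PiTensorProduct.map_tprod]
    exact Submodule.subset_span ⟨y, rfl⟩
  | zero =>
    rw [map_zero, TensorProduct.tmul_zero]
    exact Submodule.zero_mem _
  | add x y _ _ hx hy =>
    rw [map_add, TensorProduct.tmul_add]
    exact Submodule.add_mem _ hx hy
  | smul c x _ hx =>
    rw [map_smul, TensorProduct.tmul_smul]
    exact Submodule.smul_mem _ _ hx

/-- The projection to an eigenspace. -/
theorem exists_proj {W : Type*} [AddCommGroup W] [Module K W] (g : Module.End K W) (G : K[X])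
    (hsep : G.Separable) (hG : aeval g G = 0) (c : K) (hc : G.eval c = 0) :
    ∃ M : K[X], M.eval c = 1 ∧ ∀ x : W, g (aeval g M x) = c • aeval g M x := by
  obtain ⟨M, hM⟩ := dvd_iff_isRoot.2 hc
  have hMc : M.eval c ≠ 0 := by
    intro h0
    obtain ⟨N, hN⟩ := dvd_iff_isRoot.2 h0
    have h1 : (X - C c) * (X - C c) ∣ G := ⟨N, by rw [hM, hN, mul_assoc]⟩
    exact (Polynomial.not_isUnit_X_sub_C c) (hsep.squarefree _ h1)
  refine ⟨C (M.eval c)⁻¹ * M, ?_, fun x => ?_⟩
  · rw [eval_mul, eval_C, inv_mul_cancel₀ hMc]
  · have h1 : aeval g ((X - C c) * (C (M.eval c)⁻¹ * M)) x = 0 := by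
      have h2 : (X - C c) * (C (M.eval c)⁻¹ * M) = C (M.eval c)⁻¹ * G := by
        rw [hM]
        ring
      rw [h2, map_mul, hG, mul_zero, LinearMap.zero_apply]
    rw [map_mul, Module.End.mul_apply, map_sub, aeval_X, aeval_C, LinearMap.sub_apply,
      sub_eq_zero] at h1
    rw [h1]
    rfl

theorem aeval_eigen {W : Type*} [AddCommGroup W] [Module K W] (B : Module.End K W) (a : K) (ω : W)
    (hB : B ω = a • ω) (p : K[X]) : aeval B p ω = p.eval a • ω := by
  induction p using Polynomial.induction_on' with
  | add p q hp hq => rw [map_add, LinearMap.add_apply, hp, hq, eval_add, add_smul]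
  | monomial n b =>
    have h1 : ∀ m : ℕ, (B ^ m) ω = a ^ m • ω := by
      intro m
      induction m with
      | zero => rw [pow_zero, pow_zero, one_smul, Module.End.one_apply]
      | succ m ih => rw [pow_succ, Module.End.mul_apply, hB, map_smul, ih, smul_smul, pow_succ,
          mul_comm]
    rw [aeval_monomial, Module.End.mul_apply, h1, eval_monomial, mul_smul, map_smul,
      Module.algebraMap_end_apply, smul_comm]

variable [Fintype ι]

/-- A simultaneous eigenvector is a sum of tensors of eigenvectors. -/
theorem linM (f : Module.End K V) (g : ∀ k, Module.End K (U k)) (a : K) (c : ι → K)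
    (G : ι → K[X]) (hsep : ∀ k, (G k).Separable) (hG : ∀ k, aeval (g k) (G k) = 0)
    (ω : V ⊗[K] (⨂[K] k, U k)) (h1 : fr U f ω = a • ω) (h2 : ∀ k, sl V k (g k) ω = c k • ω) :
    ω ∈ Submodule.span K {ω' | ∃ (v : V) (u : ∀ k, U k), f v = a • v ∧ (∀ k, g k (u k) = c k • u k) ∧
      ω' = v ⊗ₜ[K] PiTensorProduct.tprod K u} := by
  classical
  by_cases hω : ω = 0
  · rw [hω]
    exact Submodule.zero_mem _
  have hc : ∀ k, (G k).eval (c k) = 0 := by
    intro k
    have h3 := aeval_eigen (sl V k (g k)) (c k) ω (h2 k) (G k)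
    have h4 : sl V k (0 : Module.End K (U k)) = 0 := by
      have := sl_smul (V := V) k (0 : K) (0 : Module.End K (U k))
      rwa [zero_smul, zero_smul] at this
    rw [aeval_sl, hG, h4, LinearMap.zero_apply] at h3
    exact (smul_eq_zero.1 h3.symm).resolve_right hω
  choose M hM1 hM2 using fun k => exists_proj (g k) (G k) (hsep k) (hG k) (c k) (hc k)
  -- the product of the projections
  have hproj : ∀ I : Finset ι, pt V (fun k => if k ∈ I then aeval (g k) (M k) else 1) ω = ω := by
    intro I
    induction I using Finset.induction with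
    | empty =>
      have h3 : (fun k => if k ∈ (∅ : Finset ι) then aeval (g k) (M k) else
          (1 : Module.End K (U k))) = (1 : ∀ k, Module.End K (U k)) := by
        funext k
        rw [if_neg (Finset.notMem_empty k)]
        rfl
      rw [h3, pt_one, Module.End.one_apply]
    | insert j I hj ih =>
      have h3 : (fun k => if k ∈ insert j I then aeval (g k) (M k) else
          (1 : Module.End K (U k))) = (Function.update (1 : ∀ k, Module.End K (U k)) j
          (aeval (g j) (M j))) * fun k => if k ∈ I then aeval (g k) (M k) else (1 : Module.End K (U k)) := by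
        funext k
        by_cases hk : k = j
        · subst hk
          rw [if_pos (Finset.mem_insert_self _ _), Pi.mul_apply, Function.update_self, if_neg hj,
            mul_one]
        · rw [Pi.mul_apply, Function.update_of_ne hk, Pi.one_apply, one_mul]
          by_cases hkI : k ∈ I
          · rw [if_pos hkI, if_pos (Finset.mem_insert_of_mem hkI)]
          · rw [if_neg hkI, if_neg (fun h => hkI ((Finset.mem_insert.1 h).resolve_left hk))]
      rw [h3, pt_mul, Module.End.mul_apply, ih]
      have h4 := aeval_eigen (sl V j (g j)) (c j) ω (h2 j) (M j)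
      rw [aeval_sl, hM1, one_smul] at h4
      exact h4
  have h3 := hproj Finset.univ
  simp only [Finset.mem_univ, if_true] at h3
  -- the eigenvectors in `V`
  have h4 := linA f (LinearMap.id : Module.End K (⨂[K] k, U k)) a 1 ω h1 (by
    rw [TensorProduct.map_id, one_smul, LinearMap.id_apply])
  rw [← h3]
  have h5 : ∀ ω₁ ∈ Submodule.span K {ω' | ∃ (v : V) (u : ⨂[K] k, U k), f v = a • v ∧
      (LinearMap.id : Module.End K (⨂[K] k, U k)) u = (1 : K) • u ∧ ω' = v ⊗ₜ[K] u},
      pt V (fun k => aeval (g k) (M k)) ω₁ ∈ Submodule.span K {ω' | ∃ (v : V) (u : ∀ k, U k),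
        f v = a • v ∧ (∀ k, g k (u k) = c k • u k) ∧ ω' = v ⊗ₜ[K] PiTensorProduct.tprod K u} := by
    intro ω₁ hω₁
    induction hω₁ using Submodule.span_induction with
    | mem x hx =>
      obtain ⟨v, u, hv, -, rfl⟩ := hx
      refine Submodule.span_mono ?_ (pt_mem_span _ v u)
      rintro _ ⟨x, rfl⟩
      exact ⟨v, fun k => aeval (g k) (M k) (x k), hv, fun k => hM2 k (x k), rfl⟩
    | zero =>
      rw [map_zero]
      exact Submodule.zero_mem _
    | add x y _ _ hx hy =>
      rw [map_add]
      exact Submodule.add_mem _ hx hy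
    | smul c x _ hx =>
      rw [map_smul]
      exact Submodule.smul_mem _ _ hx
  exact h5 ω h4

end

end Pool.Agent.Lib.MP_021685_agG
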