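import Mathlib
import Pool.Agent.Lib.MP_021685_agG.AddsN
import Pool.Agent.Lib.MP_021685_agW.Defs
import Pool.Agent.Lib.MP_021685_agW.PiT

/-!
# Eigenvectors of a tensor product of endomorphisms
-/

set_option autoImplicit false

open Polynomial Pool.Agent.Lib.MP_021685_agG

open scoped TensorProduct

namespace Pool.Agent.Lib.MP_021685_agW

/-- The product of the eigenvalues. -/
theorem pt_prod {K : Type*} [Field K] {V : Type*} [AddCommGroup V] [Module K V]
    {ι : Type*} [DecidableEq ι] {U : ι → Type*} [∀ k, AddCommGroup (U k)] [∀ k, Module K (U k)]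
    (g : ∀ k, Module.End K (U k)) (j : ι) (I : Finset ι) (hj : j ∉ I) :
    pt V (fun k => if k ∈ insert j I then g k else 1) =
      sl V j (g j) * pt V (fun k => if k ∈ I then g k else (1 : Module.End K (U k))) := by
  unfold sl
  rw [← pt_mul]
  congr 1
  funext k
  by_cases hk : k = j
  · subst hk
    rw [if_pos (Finset.mem_insert_self _ _), Pi.mul_apply, Function.update_self, if_neg hj,
      mul_one]
  · rw [Pi.mul_apply, Function.update_of_ne hk, Pi.one_apply, one_mul]
    by_cases hkI : k ∈ I
    · rw [if_pos hkI, if_pos (Finset.mem_insert_of_mem hkI)]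
    · rw [if_neg hkI, if_neg (fun h => hkI ((Finset.mem_insert.1 h).resolve_left hk))]

section

variable {K : Type} [Field K] {V : Type} [AddCommGroup V] [Module K V] {s : ℕ}
  {U : Fin s → Type} [∀ k, AddCommGroup (U k)] [∀ k, Module K (U k)]

/-- The eigenvalues of the factors. -/
theorem decomposes_aux (f : Module.End K V) (g : ∀ k, Module.End K (U k)) (R : K[X])
    (G : Fin s → K[X]) (hR : aeval f R = 0) (hsep : ∀ k, (G k).Separable)
    (hG : ∀ k, aeval (g k) (G k) = 0) (c : K) (hc : c ≠ 0) (c' : Fin s → K)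
    (hroots : ∀ (α : AlgebraicClosure K) (l : Fin s → AlgebraicClosure K), aeval α R = 0 →
      (∀ k, aeval (l k) (G k) = 0) → α * ∏ k, l k = algebraMap K (AlgebraicClosure K) c →
      ∀ k, l k = algebraMap K (AlgebraicClosure K) (c' k)) (ω : V ⊗[K] (⨂[K] k, U k))
    (hω : tensorEnd f g ω = c • ω) :
    (∀ k, sl V k (g k) ω = c' k • ω) ∧ (∏ k, c' k) • fr U f ω = c • ω := by
  classical
  obtain ⟨T, hT⟩ : ∃ T : Finset (Fin s) → Module.End K (V ⊗[K] (⨂[K] k, U k)),
      ∀ I, T I = pt V (fun k => if k ∈ I then g k else 1) * fr U f := ⟨_, fun _ => rfl⟩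
  have hTe : T ∅ = fr U f := by
    rw [hT]
    have h1 : (fun k => if k ∈ (∅ : Finset (Fin s)) then g k else 1) =
        (1 : ∀ k, Module.End K (U k)) := by
      funext k
      rw [if_neg (Finset.notMem_empty k)]
      rfl
    rw [h1, pt_one, one_mul]
  have hTi : ∀ k I, k ∉ I → T (insert k I) = sl V k (g k) * T I := by
    intro k I hk
    rw [hT, hT, pt_prod g k I hk, mul_assoc]
  have hTu : T Finset.univ = tensorEnd f g := by
    rw [hT]
    have h1 : (fun k => if k ∈ (Finset.univ : Finset (Fin s)) then g k else 1) = g := by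
      funext k
      rw [if_pos (Finset.mem_univ k)]
    rw [h1, (fr_pt f g).2]
    rfl
  have hωT : T Finset.univ ω = c • ω := by
    rw [hTu]
    exact hω
  have hRK : aeval (fr U f) R ω = 0 := by
    have h1 : aeval (fr U f) R = TensorProduct.map (aeval f R) LinearMap.id :=
      aeval_rTensor (U := ⨂[K] k, U k) f _
    rw [h1, hR, TensorProduct.map_zero_left, LinearMap.zero_apply]
  have hsl0 : ∀ k, sl (K := K) (U := U) V k 0 = 0 := by
    intro k
    have h1 := sl_smul (U := U) (V := V) k (0 : K) 0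
    rwa [zero_smul, zero_smul] at h1
  have hGK : ∀ k, aeval (sl V k (g k)) (G k) ω = 0 := by
    intro k
    rw [aeval_sl, hG, hsl0, LinearMap.zero_apply]
  have hAZ : ∀ k, Commute (fr U f) (sl V k (g k)) := fun k => fr_comm f k (g k)
  have hZZ : ∀ k l, Commute (sl V k (g k)) (sl V l (g l)) := fun k l => sl_comm' g k l
  have h1 : ∀ k, sl V k (g k) ω = c' k • ω := fun k =>
    multi_eig (fr U f) (fun k => sl V k (g k)) hAZ hZZ T hTe hTi R G hsep c hc ω hRK hGK hωT k
      (c' k) fun α l hα hl hal => hroots α l hα hl hal k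
  refine ⟨h1, ?_⟩
  have h2 : ∀ I : Finset (Fin s), T I ω = (∏ k ∈ I, c' k) • fr U f ω := by
    intro I
    induction I using Finset.induction with
    | empty => rw [hTe, Finset.prod_empty, one_smul]
    | insert k I hk ih =>
      rw [hTi k I hk, Module.End.mul_apply, ih, map_smul, ← Module.End.mul_apply,
        ← (hAZ k).eq, Module.End.mul_apply, h1 k, map_smul, smul_smul,
        Finset.prod_insert hk, mul_comm]
  rw [← h2 Finset.univ, hωT]

/-- An eigenvector is a linear combination of products of eigenvectors. -/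
theorem decomposes_of (f : Module.End K V) (g : ∀ k, Module.End K (U k)) (R : K[X])
    (G : Fin s → K[X]) (hR : aeval f R = 0) (hsep : ∀ k, (G k).Separable)
    (hG : ∀ k, aeval (g k) (G k) = 0) (c : K) (hc : c ≠ 0) (a : K) (c' : Fin s → K)
    (hac : a * ∏ k, c' k = c)
    (hroots : ∀ (α : AlgebraicClosure K) (l : Fin s → AlgebraicClosure K), aeval α R = 0 →
      (∀ k, aeval (l k) (G k) = 0) → α * ∏ k, l k = algebraMap K (AlgebraicClosure K) c →
      ∀ k, l k = algebraMap K (AlgebraicClosure K) (c' k)) (A : Set V) (B : ∀ k, Set (U k))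
    (hA : ∀ v, f v = a • v → v ∈ A) (hB : ∀ k u, g k u = c' k • u → u ∈ B k) :
    Decomposes f g c A B := by
  classical
  intro ω hω
  obtain ⟨h1, h2⟩ := decomposes_aux f g R G hR hsep hG c hc c' hroots ω hω
  have h3 : fr U f ω = a • ω := by
    have h4 : (∏ k, c' k) ≠ 0 := by
      intro h0
      rw [h0, mul_zero] at hac
      exact hc hac.symm
    rw [← hac, mul_comm, mul_smul] at h2
    exact smul_right_injective _ h4 h2
  have h4 := linM f g a c' G hsep hG ω h3 h1
  refine Submodule.span_mono ?_ h4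
  rintro _ ⟨v, u, hv, hu, rfl⟩
  exact ⟨v, hA v hv, u, fun k => hB k (u k) (hu k), rfl⟩

/-- There are no eigenvectors. -/
theorem decomposes_of_false (f : Module.End K V) (g : ∀ k, Module.End K (U k)) (R : K[X])
    (G : Fin s → K[X]) (hR : aeval f R = 0) (hsep : ∀ k, (G k).Separable)
    (hG : ∀ k, aeval (g k) (G k) = 0) (c : K) (hc : c ≠ 0) (k₀ : Fin s)
    (hroots : ∀ (α : AlgebraicClosure K) (l : Fin s → AlgebraicClosure K), aeval α R = 0 →
      (∀ k, aeval (l k) (G k) = 0) → α * ∏ k, l k = algebraMap K (AlgebraicClosure K) c →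
      False) (A : Set V) (B : ∀ k, Set (U k)) :
    Decomposes f g c A B := by
  classical
  intro ω hω
  obtain ⟨-, h2⟩ := decomposes_aux f g R G hR hsep hG c hc (fun _ => 0)
    (fun α l hα hl hal => (hroots α l hα hl hal).elim) ω hω
  rw [Finset.prod_eq_zero (Finset.mem_univ k₀) rfl, zero_smul] at h2
  have h4 : ω = 0 := (smul_eq_zero.1 h2.symm).resolve_left hc
  rw [h4]
  exact Submodule.zero_mem _

end

end Pool.Agent.Lib.MP_021685_agW
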