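import Mathlib
import Pool.Agent.Lib.MP_021685_agG.AddsN
import Pool.Agent.Lib.MP_021685_agW.Defs
import Pool.Agent.Lib.MP_021685_agW.RelM
import Pool.Agent.Lib.MP_021685_agW.Ten

/-!
# Generic factors of all weights add nothing
-/

set_option autoImplicit false

open Polynomial NumberField Pool.Agent.Lib.MP_021685_ag Pool.Agent.Lib.MP_021685_agD
  Pool.Agent.Lib.MP_021685_agG

open scoped TensorProduct

namespace Pool.Agent.Lib.MP_021685_agW

/-- The relations in a field `S`. -/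
theorem relSM {s q : ℕ} (hq : q ≠ 0) (w r : Fin s → ℕ) (hw : ∀ k, w k ≠ 0)
    (P : (k : Fin s) → Fin (r k) → ℤ[X]) (hG : ∀ k l, P k l ∈ generic (q ^ w k))
    (hne : Function.Injective fun a : (k : Fin s) × Fin (r k) => rootField (P a.1 a.2))
    (P' : Fin s → ℚ[X]) (hP' : ∀ k, P' k = ∏ l, (P k l).map (Int.castRingHom ℚ))
    {S : Type} [Field S] [Algebra ℚ S] (e₀ : S →ₐ[ℚ] ℂ)
    (hspl : ∀ k, ((P' k).map (algebraMap ℚ S)).Splits)
    (bar : ∀ k, (P' k).rootSet S → (P' k).rootSet S)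
    (hmul : ∀ k (x : (P' k).rootSet S), (x : S) * (bar k x : S) = ((q ^ w k : ℕ) : S)) (α : S)
    (b : Multiset ℂ) (hbα : b.prod = e₀ α) (hb : ∀ x ∈ b, x ≠ 0 ∧ ∀ k l, Foreign (P k l) x)
    (d : ∀ k, (P' k).rootSet S → ℕ) (m N : ℕ) (hm : m ≠ 0)
    (hrel : α * (∏ k, ∏ x : (P' k).rootSet S, (x : S) ^ (d k x)) ^ m = (q : S) ^ N) (k : Fin s)
    (x : (P' k).rootSet S) : d k x = d k (bar k x) := by
  classical
  have hmon : ∀ k l, (P k l).Monic := fun k l => generic_monic (hG k l)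
  have hmonR : ∀ k, (∏ l, P k l).Monic := fun k => monic_prod_of_monic _ _ fun l _ => hmon k l
  have hPR : ∀ k, P' k = (∏ l, P k l).map (Int.castRingHom ℚ) := fun k => by
    rw [hP', Polynomial.map_prod]
  have hinj : ∀ k, Function.Injective fun x : (P' k).rootSet S => e₀ (x : S) := by
    intro k x y h
    exact Subtype.ext (e₀.toRingHom.injective h)
  let d' : Fin s → ℂ → ℕ := fun k z =>
    if h : ∃ x : (P' k).rootSet S, e₀ (x : S) = z then d k h.choose else 0
  have hd' : ∀ k (x : (P' k).rootSet S), d' k (e₀ (x : S)) = d k x := by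
    intro k x
    have h : ∃ y : (P' k).rootSet S, e₀ (y : S) = e₀ (x : S) := ⟨x, rfl⟩
    simp only [d']
    rw [dif_pos h]
    congr 1
    exact hinj k h.choose_spec
  have himg : ∀ k, zeros (∏ l, P k l) =
      Finset.univ.image fun x : (P' k).rootSet S => e₀ (x : S) := by
    intro k
    ext z
    rw [mem_zeros (hmonR k).ne_zero, Finset.mem_image]
    have h1 : z ∈ (P' k).rootSet ℂ ↔ aeval z (∏ l, P k l) = 0 := by
      rw [hPR, mem_rootSet_iff (hmonR k).ne_zero]
    rw [← h1, ← (hspl k).image_rootSet e₀]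
    constructor
    · rintro ⟨x, hx, rfl⟩
      exact ⟨⟨x, hx⟩, Finset.mem_univ _, rfl⟩
    · rintro ⟨x, -, rfl⟩
      exact ⟨x, x.2, rfl⟩
  have h1 := relM hq w r hw P hG hne b hb d' m N hm (by
    have h0 : ∏ k, ∏ z ∈ zeros (∏ l, P k l), z ^ d' k z =
        e₀ (∏ k, ∏ x : (P' k).rootSet S, (x : S) ^ (d k x)) := by
      rw [map_prod]
      refine Finset.prod_congr rfl fun k _ => ?_
      rw [himg, Finset.prod_image (fun x _ y _ h => hinj k h), map_prod]
      refine Finset.prod_congr rfl fun x _ => ?_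
      rw [hd', map_pow]
    rw [h0, hbα, ← map_pow, ← map_mul, hrel, map_pow, map_natCast]) k (e₀ (x : S))
    (e₀ (bar k x : S)) (by
    have h2 : aeval (x : S) (P' k) = 0 := (mem_rootSet.1 x.2).2
    rw [← haev, ← hPR, aeval_algHom_apply, h2, map_zero]) (by
    rw [← map_mul, hmul, map_natCast, Nat.cast_pow])
  rwa [hd', hd'] at h1

theorem addsNothingW {q : ℕ} (hq : q ≠ 0) {s : ℕ} (w : Fin s → ℕ) (hw : ∀ k, w k ≠ 0)
    {r : Fin s → ℕ} (P : (k : Fin s) → Fin (r k) → ℤ[X]) (hP : AllInW generic q w P) :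
    AddsNothingW q w P := by
  classical
  intro n i R hn ⟨hR, hfor⟩ K _ _ V _ _ H _ _ FY F hFY hF e j hij
  obtain ⟨hG, hne'⟩ := hP
  have hne : Function.Injective fun a : (k : Fin s) × Fin (r k) => rootField (P a.1 a.2) := by
    rintro ⟨k, l⟩ ⟨k', l'⟩ h
    exact hne' k l k' l' h
  have hqw : ∀ k, q ^ w k ≠ 0 := fun k => pow_ne_zero _ hq
  have hA : ∀ k, AllGeneric (q ^ w k) (P k) := by
    intro k
    refine ⟨hG k, fun l l' hll h => hll ?_⟩
    have h1 := hne' k l k l' h
    simpa using h1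
  have hTate : ∀ k, TateGenerated (q ^ w k) (∏ l, P k l) := fun k => tateC (hqw k) (P k) (hA k)
  have hsep : ∀ k, (∏ l, (P k l).map (Int.castRingHom ℚ)).Separable := fun k => sepC (P k) (hA k)
  obtain ⟨P', hP'⟩ : ∃ P' : Fin s → ℚ[X], ∀ k, P' k = ∏ l, (P k l).map (Int.castRingHom ℚ) :=
    ⟨_, fun _ => rfl⟩
  set R' : ℚ[X] := R.map (Int.castRingHom ℚ) with hR'
  have hR0 : R' ≠ 0 := by
    rw [hR', Ne, Polynomial.map_eq_zero_iff Int.cast_injective]
    exact hR
  obtain ⟨S, _, _, hS⟩ := exists_nf ((∏ k, P' k) * R')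
  have hnormal : Normal ℚ S := Normal.of_isSplittingField ((∏ k, P' k) * R')
  let e₀ : S →ₐ[ℚ] ℂ := IsSplittingField.lift S ((∏ k, P' k) * R') (IsAlgClosed.splits _)
  have hbase := fun k => baseC (hqw k) (P k) (hA k) (hP' k) e₀
  choose hP0 hne0 bar hbar hfix hmul using hbase
  have hPP0 : (∏ k, P' k) ≠ 0 := Finset.prod_ne_zero_iff.2 fun k _ => hP0 k
  have hT0 : (∏ k, P' k) * R' ≠ 0 := mul_ne_zero hPP0 hR0
  have hPT : ∀ k, P' k ∣ (∏ k, P' k) * R' := fun k =>
    (Finset.dvd_prod_of_mem P' (Finset.mem_univ k)).mul_right R'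
  have hsplT := IsSplittingField.splits S ((∏ k, P' k) * R')
  have hsplP : ∀ k, ((P' k).map (algebraMap ℚ S)).Splits := fun k =>
    Splits.of_dvd hsplT (Polynomial.map_ne_zero hT0) (Polynomial.map_dvd _ (hPT k))
  have hsplR : (R'.map (algebraMap ℚ S)).Splits :=
    Splits.of_dvd hsplT (Polynomial.map_ne_zero hT0) (Polynomial.map_dvd _ (dvd_mul_left _ _))
  have hqS : (q : S) ≠ 0 := by exact_mod_cast hq
  -- the relations
  have hkey : ∀ α : S, aeval α R = 0 → ∀ d : ∀ k, (P' k).rootSet S → ℕ,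
      (∀ k, ∑ x, d k x = e k) →
      α * (∏ k, ∏ x : (P' k).rootSet S, (x : S) ^ (d k x)) ^ n = (q : S) ^ (n * j) →
      ∀ k, ∃ m, e k = 2 * m ∧ ∏ x : (P' k).rootSet S, (x : S) ^ (d k x) =
        ((q ^ w k : ℕ) : S) ^ m := by
    intro α hα d hd hrel k
    have hα0 : α ≠ 0 := by
      rintro rfl
      rw [zero_mul] at hrel
      exact pow_ne_zero _ hqS hrel.symm
    obtain ⟨b, hb1, hb2⟩ := hfor (e₀ α) (by
      rw [← haev] at hα ⊢
      rw [aeval_algHom_apply, hα, map_zero])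
    have hb0 : ∀ x ∈ b, x ≠ 0 := by
      rintro x hx rfl
      have h2 := Multiset.prod_eq_zero hx
      rw [h2] at hb1
      exact hα0 ((map_eq_zero e₀).1 hb1.symm)
    exact prod_balanced (bar k) (hbar k) (hfix k) (fun x : (P' k).rootSet S => (x : S))
      ((q ^ w k : ℕ) : S) (hmul k) (e k) (d k) (hd k) fun x =>
        relSM hq w r hw P hG hne P' hP' e₀ hsplP bar hmul α b hb1
          (fun x hx => ⟨hb0 x hx, hb2 x hx⟩) d n (n * j) hn hrel k x
  -- linear algebra
  have hlinC := fun k => linC (S := S) (hP0 k) n (e k)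
  choose G hGsep hGspl hGroots using hlinC
  have hFK : ∀ k, aeval (F k) ((P' k).map (algebraMap ℚ K)) = 0 := by
    intro k
    have h2 : (P' k).map (algebraMap ℚ K) = (∏ l, P k l).map (Int.castRingHom K) := by
      rw [hP', ← Polynomial.map_prod, Polynomial.map_map]
      congr 1
      exact Subsingleton.elim _ _
    rw [h2]
    exact hF k
  have hGkill : ∀ k, aeval (exteriorPower.map (e k) (F k ^ n)) ((G k).map (algebraMap ℚ K)) = 0 := by
    intro k
    exact linD (S := S) (T := (∏ k, P' k) * R') (hP' k ▸ hsep k) (hPT k) hT0 n (e k) (G k)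
      (fun l hl => (hGroots k l).2 hl) (F k) (hFK k)
  have hqK : (q : K) ≠ 0 := by exact_mod_cast hq
  have hc0 : (q : K) ^ (n * j) ≠ 0 := pow_ne_zero _ hqK
  have hRR' : R.map (Int.castRingHom K) = R'.map (algebraMap ℚ K) := by
    rw [hR', Polynomial.map_map]
    congr 1
    exact Subsingleton.elim _ _
  have hsepK : ∀ k, ((G k).map (algebraMap ℚ K)).Separable := fun k => (hGsep k).map
  -- the roots in the algebraic closure
  have hchar : CharZero (AlgebraicClosure K) :=
    charZero_of_injective_algebraMap (algebraMap K (AlgebraicClosure K)).injective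
  let ι' : S →ₐ[ℚ] AlgebraicClosure K :=
    IsSplittingField.lift S ((∏ k, P' k) * R') (IsAlgClosed.splits _)
  have htrans : ∀ (p : ℚ[X]), p ≠ 0 → (p.map (algebraMap ℚ S)).Splits →
      ∀ α : AlgebraicClosure K, aeval α (p.map (algebraMap ℚ K)) = 0 →
      ∃ α₀ : S, aeval α₀ p = 0 ∧ ι' α₀ = α := by
    intro p hp hspl α hα
    have h2 : α ∈ p.rootSet (AlgebraicClosure K) := by
      rw [mem_rootSet]
      refine ⟨hp, ?_⟩
      rw [← hα, aeval_def, aeval_def, eval₂_map]
      congr 1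
    rw [← hspl.image_rootSet ι'] at h2
    obtain ⟨x, hx, hxα⟩ := h2
    exact ⟨x, (mem_rootSet.1 hx).2, hxα⟩
  have htuple : ∀ (α : AlgebraicClosure K) (l : Fin s → AlgebraicClosure K),
      aeval α (R.map (Int.castRingHom K)) = 0 →
      (∀ k, aeval (l k) ((G k).map (algebraMap ℚ K)) = 0) →
      α * ∏ k, l k = algebraMap K (AlgebraicClosure K) ((q : K) ^ (n * j)) →
      ∀ k, ∃ m, e k = 2 * m ∧
        l k = algebraMap K (AlgebraicClosure K) (((q ^ w k : ℕ) : K) ^ (n * m)) := by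
    intro α l hα hl hal k
    rw [hRR'] at hα
    obtain ⟨α₀, hα₀, rfl⟩ := htrans R' hR0 hsplR α hα
    have hl' := fun k => htrans (G k) (hGsep k).ne_zero (hGspl k) (l k) (hl k)
    choose l₀ hl₀ hl₀' using hl'
    have hd := fun k => (hGroots k (l₀ k)).1 (hl₀ k)
    choose d hd1 hd2 using hd
    rw [hR', haev] at hα₀
    obtain ⟨m, hm1, hm2⟩ := hkey α₀ hα₀ d hd1 (by
      apply ι'.toRingHom.injective
      change ι' _ = ι' _
      rw [← Finset.prod_pow, ← Finset.prod_congr rfl fun k _ => hd2 k, map_mul, map_prod,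
        Finset.prod_congr rfl fun k _ => hl₀' k, hal, map_pow, map_pow, map_natCast,
        map_natCast]) k
    refine ⟨m, hm1, ?_⟩
    rw [← hl₀', hd2, hm2, map_pow, map_pow, map_natCast, map_pow, map_natCast, ← pow_mul,
      mul_comm n m]
  by_cases he : ∀ k, ∃ m, e k = 2 * m
  · choose m hm using he
    have hsum : ∑ k, w k * e k = 2 * ∑ k, w k * m k := by
      rw [Finset.mul_sum]
      refine Finset.sum_congr rfl fun k _ => ?_
      rw [hm k]
      ring
    obtain ⟨a, ha⟩ : ∃ a, j = a + ∑ k, w k * m k := ⟨j - ∑ k, w k * m k, by omega⟩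
    have hia : i = 2 * a := by omega
    refine decomposes_of FY _ (R.map (Int.castRingHom K)) (fun k => (G k).map (algebraMap ℚ K))
      hFY hsepK hGkill _ hc0 ((q : K) ^ (n * a)) (fun k => ((q ^ w k : ℕ) : K) ^ (n * m k)) ?_ ?_
      _ _ ?_ ?_
    · have h5 : ∏ k, ((q ^ w k : ℕ) : K) ^ (n * m k) = (q : K) ^ (n * ∑ k, w k * m k) := by
        rw [Finset.mul_sum, ← Finset.prod_pow_eq_pow_sum]
        refine Finset.prod_congr rfl fun k _ => ?_
        rw [Nat.cast_pow, ← pow_mul]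
        congr 1
        ring
      rw [h5, ← pow_add, ha]
      congr 1
      ring
    · intro α l hα hl hal k
      obtain ⟨m', hm1, hm2⟩ := htuple α l hα hl hal k
      have hmm : m' = m k := by
        have := hm k
        omega
      rw [hm2, hmm]
    · intro v hv
      exact ⟨a, hia, hv⟩
    · intro k u hu
      refine hTate k K (H k) (F k) (hF k) n (m k) hn _ ⟨?_, ?_⟩
      · rw [← hm k]
        exact u.2
      · rw [← linE, hu]
        rfl
  · push Not at he
    obtain ⟨k, hk⟩ := he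
    refine decomposes_of_false FY _ (R.map (Int.castRingHom K))
      (fun k => (G k).map (algebraMap ℚ K)) hFY hsepK hGkill _ hc0 k ?_ _ _
    intro α l hα hl hal
    obtain ⟨m', hm1, -⟩ := htuple α l hα hl hal k
    exact absurd hm1 (hk m')

end Pool.Agent.Lib.MP_021685_agW
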