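import Mathlib
import Pool.Agent.Lib.MP_021685_agW.Defs
import Pool.Agent.Lib.MP_021685_agG.RelC

/-!
# Automorphisms of the complex numbers
-/

set_option autoImplicit false

open Polynomial Pool.Agent.Lib.MP_021685_agD Pool.Agent.Lib.MP_021685_agG

namespace Pool.Agent.Lib.MP_021685_agW

/-- Automorphisms of a subfield of the complex numbers can be extended. -/
theorem extend_aut {K : Type} [Field K] [Algebra K ℂ] (σ : K ≃+* K) :
    ∃ τ : ℂ ≃+* ℂ, ∀ x : K, τ (algebraMap K ℂ x) = algebraMap K ℂ (σ x) := by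
  obtain ⟨s, hs⟩ := exists_isTranscendenceBasis K ℂ
  have := IsAlgClosed.isAlgClosure_of_transcendence_basis (fun x : s => (x : ℂ)) hs
  let E := hs.1.aevalEquiv
  let e : Algebra.adjoin K (Set.range fun x : s => (x : ℂ)) ≃+*
      Algebra.adjoin K (Set.range fun x : s => (x : ℂ)) :=
    (E.symm.toRingEquiv.trans (MvPolynomial.mapEquiv s σ)).trans E.toRingEquiv
  refine ⟨IsAlgClosure.equivOfEquiv ℂ ℂ e, fun x => ?_⟩
  have h1 : algebraMap K ℂ x = algebraMap (Algebra.adjoin K (Set.range fun x : s => (x : ℂ))) ℂ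
      (algebraMap K (Algebra.adjoin K (Set.range fun x : s => (x : ℂ))) x) := rfl
  have h2 : e (algebraMap K (Algebra.adjoin K (Set.range fun x : s => (x : ℂ))) x) =
      algebraMap K (Algebra.adjoin K (Set.range fun x : s => (x : ℂ))) (σ x) := by
    change E (MvPolynomial.map (σ : K →+* K) (E.symm (algebraMap K _ x))) = _
    rw [AlgEquiv.commutes, MvPolynomial.algebraMap_eq, MvPolynomial.map_C,
      ← MvPolynomial.algebraMap_eq, AlgEquiv.commutes]
    rfl
  rw [h1, IsAlgClosure.equivOfEquiv_algebraMap, h2]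
  rfl

theorem genericC_eq (q : ℕ) : genericC q = generic q := by
  ext P
  constructor
  · rintro ⟨⟨g, hg, hW⟩, hirr, h⟩
    refine ⟨⟨g, hg, hW⟩, hirr, fun z hz => ?_⟩
    obtain ⟨h1, σ, h2, h3⟩ := h z hz
    have hnormal := rootField_normal hW.1
    refine ⟨h1, ?_⟩
    let σ' : ℂ ≃ₐ[ℚ] ℂ := AlgEquiv.ofRingEquiv (f := σ) fun x => by
      rw [eq_ratCast, map_ratCast]
    have h4 : ∀ x : rootField P, ((σ'.restrictNormal (rootField P) x : rootField P) : ℂ) = σ x :=
      fun x => σ'.restrictNormal_commutes (rootField P) x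
    refine ⟨σ'.restrictNormal (rootField P), ?_, fun w hw hwz hzw => ?_⟩
    · rw [h4]
      exact h2
    · apply Subtype.ext
      rw [h4]
      exact h3 w hw (fun h5 => hwz (Subtype.ext h5)) hzw
  · rintro ⟨⟨g, hg, hW⟩, hirr, h⟩
    refine ⟨⟨g, hg, hW⟩, hirr, fun z hz => ?_⟩
    have hmem : ∀ w : ℂ, aeval w P = 0 → w ∈ rootField P := fun w hw =>
      IntermediateField.subset_adjoin ℚ _ hw
    obtain ⟨h1, σ, h2, h3⟩ := h ⟨z, hmem z hz⟩ hz
    refine ⟨h1, ?_⟩
    obtain ⟨τ, hτ⟩ := extend_aut (K := rootField P) σ.toRingEquiv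
    have h4 : ∀ w : ℂ, ∀ hw : aeval w P = 0, τ w = (σ ⟨w, hmem w hw⟩ : ℂ) := fun w hw =>
      hτ ⟨w, hmem w hw⟩
    refine ⟨τ, ?_, fun w hw hwz hzw => ?_⟩
    · rw [h4 z hz]
      exact h2
    · rw [h4 w hw, h3 ⟨w, hmem w hw⟩ hw (fun h5 => hwz (congrArg Subtype.val h5)) hzw]

end Pool.Agent.Lib.MP_021685_agW
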