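import Mathlib
import Pool.Agent.Lib.MP_021685_agD.Final

/-!
# Counting families with a bad member or a bad pair
-/

set_option autoImplicit false

open Polynomial Pool.Agent.Lib.MP_021685_agD

namespace Pool.Agent.Lib.MP_021685_agW

/-- If for every family all but a small number of changes of the coordinate `i₀` are not in `T`
then `T` is small. -/
theorem slice_le {ι : Type} [Fintype ι] [DecidableEq ι] {α : Type} [Inhabited α] (S : ι → Set α)
    (O : ι → ℕ) (hS : ∀ i, (S i).Finite) (κ : ι → ℝ) (hκ : ∀ i, 1 ≤ κ i)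
    (hSO : ∀ i, ((S i).ncard : ℝ) ≤ κ i * O i) (i₀ : ι) (T : Set (ι → α))
    (hT : ∀ P ∈ T, ∀ i, P i ∈ S i) (ε : ℝ) (hε : 0 ≤ ε)
    (h : ∀ P ∈ T, ({x : α | Function.update P i₀ x ∈ T}.ncard : ℝ) ≤ ε * O i₀) :
    (T.ncard : ℝ) ≤ ε * (∏ i, κ i) * ∏ i, (O i : ℝ) := by
  classical
  have hTfin : T.Finite := (Set.Finite.pi' hS).subset hT
  set t := hTfin.toFinset with ht
  have htc : T.ncard = t.card := Set.ncard_eq_toFinset_card T hTfin
  set n : ℕ := ⌊ε * O i₀⌋₊ with hn
  have hεO : 0 ≤ ε * O i₀ := mul_nonneg hε (Nat.cast_nonneg _)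
  have hfib : ∀ y ∈ t.image (fun P => Function.update P i₀ (default : α)),
      (t.filter fun P => Function.update P i₀ (default : α) = y).card ≤ n := by
    intro y hy
    obtain ⟨P₀, hP₀, rfl⟩ := Finset.mem_image.1 hy
    rw [ht, Set.Finite.mem_toFinset] at hP₀
    have hfin : {x : α | Function.update P₀ i₀ x ∈ T}.Finite := by
      refine (hS i₀).subset fun x hx => ?_
      have h1 := hT _ hx i₀
      rwa [Function.update_self] at h1
    have h1 : (t.filter fun P => Function.update P i₀ (default : α) =
        Function.update P₀ i₀ default).card ≤ {x : α | Function.update P₀ i₀ x ∈ T}.ncard := by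
      rw [Set.ncard_eq_toFinset_card _ hfin]
      apply Finset.card_le_card_of_injOn (fun P => P i₀)
      · intro P hP
        rw [Finset.mem_coe, Finset.mem_filter, ht, Set.Finite.mem_toFinset] at hP
        rw [Finset.mem_coe, Set.Finite.mem_toFinset, Set.mem_ofPred_eq]
        have h2 : Function.update P₀ i₀ (P i₀) = P := by
          funext i
          by_cases hi : i = i₀
          · subst hi
            rw [Function.update_self]
          · have h3 := congrFun hP.2 i
            rw [Function.update_of_ne hi, Function.update_of_ne hi] at h3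
            rw [Function.update_of_ne hi, h3]
        rw [h2]
        exact hP.1
      · intro P hP P' hP' hPP
        rw [Finset.mem_coe, Finset.mem_filter] at hP hP'
        funext i
        by_cases hi : i = i₀
        · subst hi
          exact hPP
        · have h3 := congrFun (hP.2.trans hP'.2.symm) i
          rwa [Function.update_of_ne hi, Function.update_of_ne hi] at h3
    have h2 : ((t.filter fun P => Function.update P i₀ (default : α) =
        Function.update P₀ i₀ default).card : ℝ) ≤ ε * O i₀ :=
      le_trans (by exact_mod_cast h1) (h P₀ hP₀)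
    rw [hn]
    exact Nat.le_floor h2
  have h1 := Finset.card_le_mul_card_image t n hfib
  have h2 : (t.image fun P => Function.update P i₀ (default : α)).card ≤
      ∏ i, (if i = i₀ then 1 else (S i).ncard) := by
    have h3 : ∀ i, (if i = i₀ then {default} else S i : Set α).Finite := by
      intro i
      split_ifs
      · exact Set.finite_singleton _
      · exact hS i
    have h4 := ncard_pi_set (fun i => (if i = i₀ then {default} else S i : Set α)) h3
    have h5 : ∀ i, (if i = i₀ then {default} else S i : Set α).ncard =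
        if i = i₀ then 1 else (S i).ncard := by
      intro i
      split_ifs
      · exact Set.ncard_singleton _
      · rfl
    simp only [h5] at h4
    rw [← h4, ← Set.ncard_coe_finset]
    apply Set.ncard_le_ncard
    · intro Q hQ
      rw [Finset.mem_coe, Finset.mem_image] at hQ
      obtain ⟨P, hP, rfl⟩ := hQ
      rw [ht, Set.Finite.mem_toFinset] at hP
      intro i
      by_cases hi : i = i₀
      · subst hi
        rw [Function.update_self, if_pos rfl]
        exact Set.mem_singleton _
      · rw [Function.update_of_ne hi, if_neg hi]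
        exact hT P hP i
    · exact Set.Finite.pi' h3
  have h3 : ((∏ i, (if i = i₀ then 1 else (S i).ncard) : ℕ) : ℝ) ≤
      ∏ i, (if i = i₀ then 1 else κ i * O i) := by
    rw [Nat.cast_prod]
    refine Finset.prod_le_prod (fun i _ => Nat.cast_nonneg _) fun i _ => ?_
    by_cases hi : i = i₀
    · rw [if_pos hi, if_pos hi, Nat.cast_one]
    · rw [if_neg hi, if_neg hi]
      exact hSO i
  have h4 : (O i₀ : ℝ) * ∏ i, (if i = i₀ then 1 else κ i * O i) ≤ (∏ i, κ i) * ∏ i, (O i : ℝ) := by
    rw [← Finset.mul_prod_erase Finset.univ _ (Finset.mem_univ i₀), if_pos rfl, one_mul,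
      ← Finset.prod_mul_distrib, ← Finset.mul_prod_erase Finset.univ (fun i => κ i * (O i : ℝ))
      (Finset.mem_univ i₀)]
    have h5 : ∏ i ∈ Finset.univ.erase i₀, (if i = i₀ then (1 : ℝ) else κ i * O i) =
        ∏ i ∈ Finset.univ.erase i₀, κ i * O i :=
      Finset.prod_congr rfl fun i hi => by rw [if_neg (Finset.ne_of_mem_erase hi)]
    rw [h5]
    have h6 : 0 ≤ ∏ i ∈ Finset.univ.erase i₀, κ i * (O i : ℝ) :=
      Finset.prod_nonneg fun i _ => mul_nonneg (by linarith [hκ i]) (Nat.cast_nonneg _)
    have h7 : (O i₀ : ℝ) ≤ κ i₀ * O i₀ := by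
      have h8 : (0 : ℝ) ≤ O i₀ := Nat.cast_nonneg _
      nlinarith [hκ i₀]
    exact mul_le_mul_of_nonneg_right h7 h6
  rw [htc]
  calc (t.card : ℝ) ≤ (n : ℝ) * ((∏ i, (if i = i₀ then 1 else (S i).ncard) : ℕ) : ℝ) := by
        exact_mod_cast h1.trans (Nat.mul_le_mul_left n h2)
    _ ≤ (ε * O i₀) * ∏ i, (if i = i₀ then 1 else κ i * O i) := by
        refine mul_le_mul (Nat.floor_le hεO) h3 (Nat.cast_nonneg _) hεO
    _ = ε * ((O i₀ : ℝ) * ∏ i, (if i = i₀ then 1 else κ i * O i)) := by ring
    _ ≤ ε * ((∏ i, κ i) * ∏ i, (O i : ℝ)) := mul_le_mul_of_nonneg_left h4 hε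
    _ = ε * (∏ i, κ i) * ∏ i, (O i : ℝ) := by ring

end Pool.Agent.Lib.MP_021685_agW
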