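import Mathlib
import Pool.Agent.Lib.MP_021685_agG.SplitCount
import Pool.Agent.Lib.MP_021685_agG.RelC

/-!
# Weil polynomials which split over a number field of bounded degree
-/

set_option autoImplicit false

open Polynomial NumberField Pool.Agent.Lib.MP_021685_agD Pool.Agent.Lib.MP_021685_agG

namespace Pool.Agent.Lib.MP_021685_agW

theorem le_factorial_of_totient_le {T D : ℕ} (hT : T ≠ 0) (h : Nat.totient T ≤ D) :
    T ≤ (2 * D).factorial := by
  apply Nat.le_of_dvd (Nat.factorial_pos _)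
  rw [Nat.dvd_iff_prime_pow_dvd_dvd]
  intro p k hp hpk
  rcases Nat.eq_zero_or_pos k with rfl | hk
  · simp
  have h1 : Nat.totient (p ^ k) ≤ D :=
    (Nat.le_of_dvd (Nat.totient_pos.2 (Nat.pos_of_ne_zero hT)) (Nat.totient_dvd_of_dvd hpk)).trans h
  rw [Nat.totient_prime_pow hp hk] at h1
  apply Nat.dvd_factorial (pow_pos hp.pos k)
  have h2 : p ^ k = p ^ (k - 1) * p := by
    rw [← pow_succ]
    congr 1
    omega
  rw [h2]
  have h3 : p ≤ 2 * (p - 1) := by
    have := hp.two_le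
    omega
  calc p ^ (k - 1) * p ≤ p ^ (k - 1) * (2 * (p - 1)) := Nat.mul_le_mul_left _ h3
    _ = 2 * (p ^ (k - 1) * (p - 1)) := by ring
    _ ≤ 2 * D := Nat.mul_le_mul_left _ h1

theorem torsion_card_le (L : Type) [Field L] [NumberField L] :
    Nat.card (NumberField.Units.torsion L) ≤ (2 * Module.finrank ℚ L).factorial := by
  have hT : Nat.card (NumberField.Units.torsion L) ≠ 0 :=
    NumberField.Units.torsionOrder_ne_zero L
  apply le_factorial_of_totient_le hT
  obtain ⟨ζ, hζ⟩ := IsCyclic.exists_ofOrder_eq_natCard (α := NumberField.Units.torsion L)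
  have h1 : IsPrimitiveRoot ζ (Nat.card (NumberField.Units.torsion L)) := by
    rw [← hζ]
    exact IsPrimitiveRoot.orderOf ζ
  have h2 : IsPrimitiveRoot (((ζ : (𝓞 L)ˣ) : 𝓞 L) : L)
      (Nat.card (NumberField.Units.torsion L)) := by
    have h3 : IsPrimitiveRoot (ζ : (𝓞 L)ˣ) (Nat.card (NumberField.Units.torsion L)) :=
      IsPrimitiveRoot.coe_submonoidClass_iff.2 h1
    exact IsPrimitiveRoot.coe_coe_iff.2 h3
  have h3 := h2.totient_le_degree_minpoly
  have hint : IsIntegral ℤ (((ζ : (𝓞 L)ˣ) : 𝓞 L) : L) := (ζ : (𝓞 L)ˣ).val.isIntegral_coe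
  have h4 : (minpoly ℤ (((ζ : (𝓞 L)ˣ) : 𝓞 L) : L)).natDegree =
      (minpoly ℚ (((ζ : (𝓞 L)ˣ) : 𝓞 L) : L)).natDegree := by
    rw [minpoly.isIntegrallyClosed_eq_field_fractions' ℚ hint, (minpoly.monic hint).natDegree_map]
  rw [h4] at h3
  exact h3.trans (minpoly.natDegree_le _)

/-- A number field of degree at most `D` contains at most `C (log q) ^ D` Weil numbers for `q`. -/
theorem weil_count_unif (D : ℕ) : ∃ C : ℝ, 0 ≤ C ∧ ∀ (L : IntermediateField ℚ ℂ),
    FiniteDimensional ℚ L → Module.finrank ℚ L ≤ D → ∀ p n q : ℕ, p.Prime → n ≠ 0 → q = p ^ n →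
      (weilIn L q).Finite ∧ ((weilIn L q).ncard : ℝ) ≤ C * Real.log q ^ D := by
  classical
  refine ⟨(2 * D + 2) ^ D * (2 * D).factorial, by positivity,
    fun L hLfin hLD p n q hp hn hq => ?_⟩
  have hNF : NumberField L := { to_charZero := inferInstance, to_finiteDimensional := hLfin }
  set D' := Module.finrank ℚ L with hD'
  set T := Nat.card (NumberField.Units.torsion L) with hT
  have hTle : T ≤ (2 * D).factorial :=
    (torsion_card_le L).trans (Nat.factorial_le (Nat.mul_le_mul_left 2 hLD))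
  obtain ⟨hfin, hcard⟩ := weilSet_card L hp hq
  have hsub : weilIn L q ⊆ (fun x : 𝓞 L => ((x : L) : ℂ)) '' weilSet L q := by
    rintro z ⟨hzL, hzint, hz⟩
    have hint : IsIntegral ℤ (⟨z, hzL⟩ : L) := by
      rw [← isIntegral_algHom_iff (L.val.restrictScalars ℤ) L.val.injective]
      exact hzint
    refine ⟨⟨⟨z, hzL⟩, hint⟩, ?_, rfl⟩
    intro φ
    apply hz
    have h1 : minpoly ℚ z = minpoly ℚ (⟨z, hzL⟩ : L) :=
      minpoly.algebraMap_eq (A := ℚ) (B := L) (B' := ℂ) (algebraMap L ℂ).injective ⟨z, hzL⟩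
    rw [h1]
    have h2 : aeval (φ.toRatAlgHom (⟨z, hzL⟩ : L)) (minpoly ℚ (⟨z, hzL⟩ : L)) = 0 := by
      rw [aeval_algHom_apply, minpoly.aeval, map_zero]
    exact h2
  have hfin2 := (hfin.image (fun x : 𝓞 L => ((x : L) : ℂ))).subset hsub
  refine ⟨hfin2, ?_⟩
  have h1 : (weilIn L q).ncard ≤ (n * D' + 1) ^ D' * T :=
    (Set.ncard_le_ncard hsub (hfin.image _)).trans ((Set.ncard_image_le hfin).trans hcard)
  have h1' : (weilIn L q).ncard ≤ (n * D + 1) ^ D * (2 * D).factorial := by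
    refine h1.trans (Nat.mul_le_mul ?_ hTle)
    exact (Nat.pow_le_pow_left (Nat.succ_le_succ (Nat.mul_le_mul_left n hLD)) _).trans
      (Nat.pow_le_pow_right (Nat.succ_pos _) hLD)
  have h2 : ((weilIn L q).ncard : ℝ) ≤ (n * D + 1) ^ D * (2 * D).factorial := by
    exact_mod_cast h1'
  refine h2.trans ?_
  have hlog2 : (1 : ℝ) / 2 < Real.log 2 := by
    have := Real.log_two_gt_d9
    linarith
  have hlogp : Real.log 2 ≤ Real.log p :=
    Real.log_le_log (by norm_num) (by exact_mod_cast hp.two_le)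
  have hlogq : Real.log q = n * Real.log p := by
    rw [hq, Nat.cast_pow, Real.log_pow]
  have hn1 : (1 : ℝ) ≤ n := by exact_mod_cast Nat.one_le_iff_ne_zero.2 hn
  have h3 : (n : ℝ) ≤ 2 * Real.log q := by
    rw [hlogq]
    nlinarith
  have h4 : (n : ℝ) * D + 1 ≤ (2 * D + 2) * Real.log q := by
    have hD0 : (0 : ℝ) ≤ D := Nat.cast_nonneg D
    nlinarith
  have h5 : ((n : ℝ) * D + 1) ^ D ≤ ((2 * D + 2) * Real.log q) ^ D :=
    pow_le_pow_left₀ (by positivity) h4 D
  calc ((n : ℝ) * D + 1) ^ D * (2 * D).factorial ≤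
        ((2 * D + 2) * Real.log q) ^ D * (2 * D).factorial :=
        mul_le_mul_of_nonneg_right h5 (Nat.cast_nonneg _)
    _ = (2 * D + 2) ^ D * (2 * D).factorial * Real.log q ^ D := by rw [mul_pow]; ring

theorem split_card_unif (g : ℕ) (hg : g ≠ 0) {δ : ℝ} (hδ : 0 < δ) (D : ℕ) :
    ∃ q₀ : ℕ, ∀ p q : ℕ, p.Prime → q₀ ≤ q → p ∣ q → IsPrimePow q →
      ∀ E : Fin g → ℕ, Small p g q δ E → ∀ L : IntermediateField ℚ ℂ, FiniteDimensional ℚ L →
      Module.finrank ℚ L ≤ D →
      ({P | P ∈ closedStratum p g q E ∧ rootField P ≤ L}.ncard : ℝ) ≤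
        (Real.log q * (q : ℝ) ^ (-(δ / 3))) * vol p g q E := by
  obtain ⟨C, hC0, hC⟩ := weil_count_unif D
  -- the asymptotic inequality
  have hlim : ∀ᶠ x : ℝ in Filter.atTop,
      (C * Real.log x ^ D) ^ (2 * g) ≤ x ^ (2 * δ / 3) := by
    have h1 := (isLittleO_log_rpow_rpow_atTop (s := 2 * δ / 3) ((D * (2 * g) : ℕ) : ℝ)
      (by positivity)).def (c := 1 / (C ^ (2 * g) + 1)) (by positivity)
    filter_upwards [h1, Filter.eventually_ge_atTop (1 : ℝ)] with x hx hx1
    have hlog : 0 ≤ Real.log x := Real.log_nonneg hx1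
    rw [Real.rpow_natCast, Real.norm_of_nonneg (by positivity),
      Real.norm_of_nonneg (by positivity)] at hx
    have hC1 : 0 ≤ C ^ (2 * g) := by positivity
    have h2 : (C * Real.log x ^ D) ^ (2 * g) = C ^ (2 * g) * Real.log x ^ (D * (2 * g)) := by
      rw [mul_pow, ← pow_mul]
    rw [h2]
    have h3 : (C ^ (2 * g) + 1) * Real.log x ^ (D * (2 * g)) ≤ x ^ (2 * δ / 3) := by
      rw [one_div, ← div_eq_inv_mul, le_div_iff₀ (by positivity)] at hx
      linarith
    have h4 : 0 ≤ Real.log x ^ (D * (2 * g)) := by positivity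
    nlinarith
  obtain ⟨x₀, hx₀⟩ := Filter.eventually_atTop.1 hlim
  refine ⟨max 3 ⌈x₀⌉₊, fun p q hp hq hpq hqp E hE L hL hLD => ?_⟩
  have hq3 : 3 ≤ q := le_trans (le_max_left _ _) hq
  have hq0 : q ≠ 0 := by omega
  have hq1 : (1 : ℝ) ≤ q := by exact_mod_cast (by omega : 1 ≤ q)
  have hqx : x₀ ≤ q := (Nat.le_ceil x₀).trans (by exact_mod_cast le_trans (le_max_right _ _) hq)
  obtain ⟨n, hn, hqn⟩ : ∃ n, n ≠ 0 ∧ q = p ^ n := by
    obtain ⟨p', k, hp', hk, rfl⟩ := (isPrimePow_nat_iff q).1 hqp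
    have h1 := hp.dvd_of_dvd_pow hpq
    have h2 := (Nat.prime_dvd_prime_iff_eq hp hp').1 h1
    exact ⟨k, hk.ne', by rw [h2]⟩
  obtain ⟨hfin, hcard⟩ := hC L hL hLD p n q hp hn hqn
  have h1 : ({P | P ∈ closedStratum p g q E ∧ rootField P ≤ L}.ncard : ℝ) ≤
      ((weilIn L q).ncard : ℝ) ^ (2 * g) := by
    have h2 : {P | P ∈ closedStratum p g q E ∧ rootField P ≤ L}.ncard ≤
        {P | P ∈ weilPolys g q ∧ rootField P ≤ L}.ncard := by
      apply Set.ncard_le_ncard
      · rintro P ⟨h3, h4⟩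
        exact ⟨h3.1, h4⟩
      · exact (weil_finite g hq0).subset fun _ h => h.1
    exact_mod_cast h2.trans (split_ncard hq0 L hfin)
  have hlog : 1 ≤ Real.log q := by
    rw [Real.le_log_iff_exp_le (by positivity)]
    have h1 := Real.exp_one_lt_d9
    have h2 : (3 : ℝ) ≤ q := by exact_mod_cast hq3
    linarith
  have h2 : ((weilIn L q).ncard : ℝ) ^ (2 * g) ≤ (q : ℝ) ^ (2 * δ / 3) :=
    (pow_le_pow_left₀ (Nat.cast_nonneg _) hcard _).trans (hx₀ q hqx)
  have hvol : (q : ℝ) ^ δ ≤ vol p g q E := by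
    have hk : ∀ k : Fin g, (q : ℝ) ^ δ ≤ Real.sqrt q ^ ((k : ℕ) + 1) / (p : ℝ) ^ E k := by
      intro k
      have hp0 : (0 : ℝ) < p := by exact_mod_cast hp.pos
      rw [le_div_iff₀ (by positivity), mul_comm]
      exact hE k
    have h1 : ∏ _k : Fin g, (q : ℝ) ^ δ ≤ vol p g q E := by
      rw [vol]
      exact Finset.prod_le_prod (fun _ _ => by positivity) fun k _ => hk k
    rw [Finset.prod_const, Finset.card_univ, Fintype.card_fin] at h1
    refine le_trans ?_ h1
    exact le_self_pow₀ (Real.one_le_rpow hq1 hδ.le) hg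
  have h3 : (q : ℝ) ^ (2 * δ / 3) ≤ (Real.log q * (q : ℝ) ^ (-(δ / 3))) * vol p g q E := by
    have h4 : (q : ℝ) ^ (2 * δ / 3) = (q : ℝ) ^ (-(δ / 3)) * (q : ℝ) ^ δ := by
      rw [← Real.rpow_add (by positivity)]
      congr 1
      ring
    rw [h4, mul_assoc]
    have h5 : (q : ℝ) ^ (-(δ / 3)) * (q : ℝ) ^ δ ≤ (q : ℝ) ^ (-(δ / 3)) * vol p g q E :=
      mul_le_mul_of_nonneg_left hvol (by positivity)
    have h6 : 0 ≤ (q : ℝ) ^ (-(δ / 3)) * vol p g q E := le_trans (by positivity) h5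
    nlinarith
  exact h1.trans (h2.trans h3)

/-- The degree of the splitting field. -/
theorem finrank_rootField_le {q : ℕ} {P : ℤ[X]} (hP : P ∈ generic q) :
    Module.finrank ℚ (rootField P) ≤ P.natDegree.factorial := by
  classical
  have hmon := generic_monic hP
  set P' : ℚ[X] := P.map (Int.castRingHom ℚ) with hP'
  have hirr : Irreducible P' := generic_irreducible hP
  have hspl := rootField_splitting hmon
  have h1 : Module.finrank ℚ (rootField P) = Module.finrank ℚ P'.SplittingField :=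
    (IsSplittingField.algEquiv (rootField P) P').toLinearEquiv.finrank_eq
  rw [h1, ← Gal.card_of_separable hirr.separable]
  have hfact : Fact ((P'.map (algebraMap ℚ P'.SplittingField)).Splits) :=
    ⟨SplittingField.splits P'⟩
  have h2 := Nat.card_le_card_of_injective _ (Gal.galActionHom_injective P' P'.SplittingField)
  refine h2.trans ?_
  rw [Nat.card_perm]
  apply Nat.factorial_le
  have h3 := card_rootSet_eq_natDegree hirr.separable (SplittingField.splits P')
  rw [← Nat.card_eq_fintype_card] at h3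
  exact h3.le.trans (le_of_eq (by rw [hP', hmon.natDegree_map]))

end Pool.Agent.Lib.MP_021685_agW
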