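import Mathlib
import Pool.Agent.Lib.MP_021685_agG.Final
import Pool.Agent.Lib.MP_021685_agW.Unif
import Pool.Agent.Lib.MP_021685_agW.Slice

/-!
# The density of the generic families of several weights
-/

set_option autoImplicit false

open Polynomial Pool.Agent.Lib.MP_021685_agD Pool.Agent.Lib.MP_021685_agG

namespace Pool.Agent.Lib.MP_021685_agW

/-- One polynomial. -/
theorem single_dens (g : ℕ) (hg : g ≠ 0) {δ : ℝ} (hδ : 0 < δ) (hδ1 : δ ≤ 1) :
    ∃ C : ℝ, 0 ≤ C ∧ ∀ L : IntermediateField ℚ ℂ, FiniteDimensional ℚ L → ∃ q₀ : ℕ,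
      ∀ p q : ℕ, p.Prime → q₀ ≤ q → p ∣ q → IsPrimePow q → ∀ E : Fin g → ℕ, Small p g q δ E →
      ({P | P ∈ closedStratum p g q E ∧ ¬ (P ∈ generic q ∧ ¬ rootField P ≤ L)}.ncard : ℝ) ≤
        C * (Real.log q * (q : ℝ) ^ (-(δ / 3))) * ((openStratum p g q E).ncard : ℝ) := by
  classical
  obtain ⟨C, hC⟩ := density_gen (fun _ : Fin 1 => g) (fun _ => hg) hδ hδ1
  refine ⟨max C 0, le_max_right _ _, fun L hL => ?_⟩
  obtain ⟨q₀, h⟩ := hC L hL
  refine ⟨max q₀ 1, fun p q hp hq hpq hqp E hE => ?_⟩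
  have hq1 : (1 : ℝ) ≤ q := by exact_mod_cast le_trans (le_max_right _ _) hq
  have hq0 : q ≠ 0 := by
    have : 1 ≤ q := le_trans (le_max_right _ _) hq
    omega
  obtain ⟨hfin, hcard⟩ := h p q hp (le_trans (le_max_left _ _) hq) hpq hqp (fun _ => E)
    (fun _ => hE)
  have h1 : {P | P ∈ closedStratum p g q E ∧ ¬ (P ∈ generic q ∧ ¬ rootField P ≤ L)}.ncard ≤
      {P : Fin 1 → ℤ[X] | (∀ _ : Fin 1, P 0 ∈ closedStratum p g q E) ∧
        ¬ (AllGeneric q P ∧ ∀ k, ¬ rootField (P k) ≤ L)}.ncard := by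
    refine Set.ncard_le_ncard_of_injOn (fun P => fun _ : Fin 1 => P) ?_ ?_ ?_
    · rintro P ⟨hP1, hP2⟩
      refine ⟨fun _ => hP1, fun hP3 => hP2 ⟨hP3.1.1 0, hP3.2 0⟩⟩
    · intro P _ P' _ h
      exact congrFun h 0
    · refine hfin.subset ?_
      rintro P ⟨hP1, -⟩ i
      rw [Subsingleton.elim i 0]
      exact hP1 0
  have h2 : {P : Fin 1 → ℤ[X] | (∀ i, P i ∈ closedStratum p g q E) ∧
        ¬ (AllGeneric q P ∧ ∀ k, ¬ rootField (P k) ≤ L)} =
      {P : Fin 1 → ℤ[X] | (∀ _ : Fin 1, P 0 ∈ closedStratum p g q E) ∧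
        ¬ (AllGeneric q P ∧ ∀ k, ¬ rootField (P k) ≤ L)} := by
    ext P
    refine and_congr ⟨fun h _ => h 0, fun h i => ?_⟩ Iff.rfl
    rw [Subsingleton.elim i 0]
    exact h 0
  have h3 : {P : Fin 1 → ℤ[X] | ∀ i, P i ∈ openStratum p g q E}.ncard =
      (openStratum p g q E).ncard := by
    rw [ncard_pi_set (fun _ : Fin 1 => openStratum p g q E) fun _ =>
      (weil_finite g hq0).subset fun _ h => h.1]
    simp
  rw [h2, h3] at hcard
  refine le_trans (by exact_mod_cast h1) (hcard.trans ?_)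
  have h4 : 0 ≤ Real.log q * (q : ℝ) ^ (-(δ / 3)) :=
    mul_nonneg (Real.log_nonneg hq1) (Real.rpow_nonneg (Nat.cast_nonneg _) _)
  exact mul_le_mul_of_nonneg_right (mul_le_mul_of_nonneg_right (le_max_left _ _) h4)
    (Nat.cast_nonneg _)

theorem density_mixed {ι : Type} [Fintype ι] [DecidableEq ι] (g w : ι → ℕ) (hg : ∀ i, g i ≠ 0)
    (hw : ∀ i, w i ≠ 0) {δ : ℝ} (hδ : 0 < δ) (hδ1 : δ ≤ 1) :
    ∃ C : ℝ, ∀ L : IntermediateField ℚ ℂ, FiniteDimensional ℚ L → ∃ q₀ : ℕ,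
      ∀ p q : ℕ, p.Prime → q₀ ≤ q → p ∣ q → IsPrimePow q →
      ∀ E : ∀ i, Fin (g i) → ℕ, (∀ i, Small p (g i) (q ^ w i) δ (E i)) →
      {P : ι → ℤ[X] | ∀ i, P i ∈ closedStratum p (g i) (q ^ w i) (E i)}.Finite ∧
      ({P : ι → ℤ[X] | (∀ i, P i ∈ closedStratum p (g i) (q ^ w i) (E i)) ∧
        ¬ ((∀ i, P i ∈ generic (q ^ w i)) ∧ (∀ i j, i ≠ j → rootField (P i) ≠ rootField (P j)) ∧
          ∀ i, ¬ rootField (P i) ≤ L)}.ncard : ℝ) ≤
      C * (Real.log q * (q : ℝ) ^ (-(δ / 3))) *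
        ({P : ι → ℤ[X] | ∀ i, P i ∈ openStratum p (g i) (q ^ w i) (E i)}.ncard : ℝ) := by
  classical
  have hsd := fun i => single_dens (g i) (hg i) hδ hδ1
  choose C₁ hC₁0 hC₁ using hsd
  have hlow := fun i => open_card_ge (g i) (hg i) hδ
  choose c hc0 q₃ hc using hlow
  set D : ℕ := ∑ i, (2 * g i).factorial with hD
  have hun := fun i => split_card_unif (g i) (hg i) hδ D
  choose q₄ hq₄ using hun
  -- the constants
  set κ : ι → ℝ := fun i => max 1 (wK (g i) / c i) with hκ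
  have hκ1 : ∀ i, 1 ≤ κ i := fun i => le_max_left _ _
  have hKpos : 0 < ∏ i, κ i := Finset.prod_pos fun i _ => lt_of_lt_of_le one_pos (hκ1 i)
  refine ⟨(∑ i, (C₁ i * w i + ∑ _j : ι, w i / c i)) * ∏ i, κ i, fun L hL => ?_⟩
  have hsp := fun i => hC₁ i L hL
  choose q₁ hq₁ using hsp
  refine ⟨3 + ∑ i, (q₁ i + q₃ i + q₄ i), fun p q hp hq hpq hqp E hE => ?_⟩
  have hq3 : 3 ≤ q := by omega
  have hq0 : q ≠ 0 := by omega
  have hq1 : (1 : ℝ) ≤ q := by exact_mod_cast (by omega : 1 ≤ q)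
  have hqw0 : ∀ i, q ^ w i ≠ 0 := fun i => pow_ne_zero _ hq0
  have hqi : ∀ i, q₁ i + q₃ i + q₄ i ≤ q ^ w i := by
    intro i
    have h1 : q₁ i + q₃ i + q₄ i ≤ ∑ i, (q₁ i + q₃ i + q₄ i) :=
      Finset.single_le_sum (f := fun i => q₁ i + q₃ i + q₄ i) (fun _ _ => Nat.zero_le _)
        (Finset.mem_univ i)
    have h2 : q ≤ q ^ w i := Nat.le_self_pow (hw i) q
    omega
  have hpqw : ∀ i, p ∣ q ^ w i := fun i => dvd_pow hpq (hw i)
  have hppw : ∀ i, IsPrimePow (q ^ w i) := fun i => hqp.pow (hw i)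
  set η : ℝ := Real.log q * (q : ℝ) ^ (-(δ / 3)) with hη
  have hlog0 : 0 ≤ Real.log q := Real.log_nonneg hq1
  have hη0 : 0 ≤ η := mul_nonneg hlog0 (Real.rpow_nonneg (Nat.cast_nonneg _) _)
  have hηi : ∀ i, Real.log ((q ^ w i : ℕ) : ℝ) * ((q ^ w i : ℕ) : ℝ) ^ (-(δ / 3)) ≤ w i * η := by
    intro i
    rw [hη, Nat.cast_pow, Real.log_pow, mul_assoc]
    refine mul_le_mul_of_nonneg_left (mul_le_mul_of_nonneg_left ?_ hlog0) (Nat.cast_nonneg _)
    refine Real.rpow_le_rpow_of_nonpos (by positivity) (le_self_pow₀ hq1 (hw i)) ?_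
    have : 0 ≤ δ / 3 := by positivity
    linarith
  -- the strata
  set S : ι → Set ℤ[X] := fun i => closedStratum p (g i) (q ^ w i) (E i) with hS
  set O : ι → ℕ := fun i => (openStratum p (g i) (q ^ w i) (E i)).ncard with hO
  have hSfin : ∀ i, (S i).Finite := fun i => closed_finite (hqw0 i)
  have hvol : ∀ i, 0 < vol p (g i) (q ^ w i) (E i) := fun i => vol_pos hp (hqw0 i)
  have hvO : ∀ i, vol p (g i) (q ^ w i) (E i) ≤ O i / c i := by
    intro i
    rw [le_div_iff₀ (hc0 i), mul_comm]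
    exact hc i p (q ^ w i) hp (hpqw i) (by have := hqi i; omega) (hppw i) (E i) (hE i)
  have hSO : ∀ i, ((S i).ncard : ℝ) ≤ κ i * O i := by
    intro i
    refine (closed_card_le hp (hg i) (hqw0 i) hδ (hE i)).trans ?_
    have h1 : wK (g i) * vol p (g i) (q ^ w i) (E i) ≤ wK (g i) * (O i / c i) :=
      mul_le_mul_of_nonneg_left (hvO i) (by linarith [one_le_wK (g i)])
    refine h1.trans ?_
    have h2 : wK (g i) * (O i / c i) = (wK (g i) / c i) * O i := by ring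
    rw [h2]
    exact mul_le_mul_of_nonneg_right (le_max_right _ _) (Nat.cast_nonneg _)
  have hOprod : ({P : ι → ℤ[X] | ∀ i, P i ∈ openStratum p (g i) (q ^ w i) (E i)}.ncard : ℝ) =
      ∏ i, (O i : ℝ) := by
    rw [ncard_pi_set _ fun i => (weil_finite (g i) (hqw0 i)).subset fun _ h => h.1,
      Nat.cast_prod]
  have hWfin : {P : ι → ℤ[X] | ∀ i, P i ∈ S i}.Finite := Set.Finite.pi' hSfin
  refine ⟨hWfin, ?_⟩
  -- the exceptional sets
  let T₁ : ι → Set (ι → ℤ[X]) := fun i =>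
    {P | (∀ j, P j ∈ S j) ∧ ¬ (P i ∈ generic (q ^ w i) ∧ ¬ rootField (P i) ≤ L)}
  let T₂ : ι → ι → Set (ι → ℤ[X]) := fun i j =>
    {P | (∀ k, P k ∈ S k) ∧ i ≠ j ∧ P j ∈ generic (q ^ w j) ∧
      rootField (P i) = rootField (P j)}
  have hT₁ : ∀ i, ((T₁ i).ncard : ℝ) ≤ (C₁ i * w i * η) * (∏ i, κ i) * ∏ i, (O i : ℝ) := by
    intro i
    refine slice_le S O hSfin κ hκ1 hSO i (T₁ i) (fun P hP => hP.1) _
      (mul_nonneg (mul_nonneg (hC₁0 i) (Nat.cast_nonneg _)) hη0) fun P hP => ?_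
    have h1 : {x : ℤ[X] | Function.update P i x ∈ T₁ i} ⊆
        {P | P ∈ S i ∧ ¬ (P ∈ generic (q ^ w i) ∧ ¬ rootField P ≤ L)} := by
      rintro x ⟨hx1, hx2⟩
      have h2 := hx1 i
      rw [Function.update_self] at h2 hx2
      exact ⟨h2, hx2⟩
    have h2 := Set.ncard_le_ncard h1 ((hSfin i).subset fun x hx => hx.1)
    have h3 := hq₁ i p (q ^ w i) hp (by have := hqi i; omega) (hpqw i) (hppw i) (E i) (hE i)
    refine le_trans (by exact_mod_cast h2) (h3.trans ?_)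
    refine mul_le_mul_of_nonneg_right ?_ (Nat.cast_nonneg _)
    rw [mul_assoc]
    exact mul_le_mul_of_nonneg_left (hηi i) (hC₁0 i)
  have hT₂ : ∀ i j, ((T₂ i j).ncard : ℝ) ≤ (w i / c i * η) * (∏ i, κ i) * ∏ i, (O i : ℝ) := by
    intro i j
    refine slice_le S O hSfin κ hκ1 hSO i (T₂ i j) (fun P hP => hP.1) _
      (mul_nonneg (div_nonneg (Nat.cast_nonneg _) (hc0 i).le) hη0) fun P hP => ?_
    obtain ⟨hP1, hij, hP2, -⟩ := hP
    have h1 : {x : ℤ[X] | Function.update P i x ∈ T₂ i j} ⊆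
        {x | x ∈ closedStratum p (g i) (q ^ w i) (E i) ∧ rootField x ≤ rootField (P j)} := by
      rintro x ⟨hx1, -, -, hx2⟩
      have h2 := hx1 i
      rw [Function.update_self, Function.update_of_ne hij.symm] at hx2
      rw [Function.update_self] at h2
      exact ⟨h2, hx2.le⟩
    have h2 := Set.ncard_le_ncard h1 ((hSfin i).subset fun x hx => hx.1)
    have hdeg : Module.finrank ℚ (rootField (P j)) ≤ D := by
      refine (finrank_rootField_le hP2).trans ?_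
      rw [(hP1 j).1.2.1, hD]
      exact Finset.single_le_sum (f := fun i => (2 * g i).factorial) (fun _ _ => Nat.zero_le _)
        (Finset.mem_univ j)
    have h3 := hq₄ i p (q ^ w i) hp (by have := hqi i; omega) (hpqw i) (hppw i) (E i) (hE i)
      (rootField (P j)) (rootField_finite (generic_monic hP2)) hdeg
    refine le_trans (by exact_mod_cast h2) (h3.trans ?_)
    calc _ ≤ (w i * η) * (O i / c i) := mul_le_mul (hηi i) (hvO i) (hvol i).le
          (mul_nonneg (Nat.cast_nonneg _) hη0)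
      _ = w i / c i * η * O i := by ring
  have hsub : {P : ι → ℤ[X] | (∀ i, P i ∈ S i) ∧
      ¬ ((∀ i, P i ∈ generic (q ^ w i)) ∧ (∀ i j, i ≠ j → rootField (P i) ≠ rootField (P j)) ∧
        ∀ i, ¬ rootField (P i) ≤ L)} ⊆
      (⋃ i ∈ (Finset.univ : Finset ι), (T₁ i ∪ ⋃ j ∈ (Finset.univ : Finset ι), T₂ i j)) := by
    rintro P ⟨hP, hT⟩
    by_contra hcon
    simp only [Finset.mem_univ, Set.iUnion_true, Set.mem_iUnion, not_exists, Set.mem_union,
      not_or] at hcon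
    have h1 : ∀ i, P i ∈ generic (q ^ w i) ∧ ¬ rootField (P i) ≤ L := by
      intro i
      by_contra hi
      exact (hcon i).1 ⟨hP, hi⟩
    exact hT ⟨fun i => (h1 i).1, fun i j hij heq => (hcon i).2 j ⟨hP, hij, (h1 j).1, heq⟩,
      fun i => (h1 i).2⟩
  have hT₁f : ∀ i, (T₁ i).Finite := fun i => hWfin.subset fun P hP => hP.1
  have hT₂f : ∀ i j, (T₂ i j).Finite := fun i j => hWfin.subset fun P hP => hP.1
  have hUf : ∀ i, (⋃ j ∈ (Finset.univ : Finset ι), T₂ i j).Finite := fun i =>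
    Set.Finite.biUnion (Finset.finite_toSet _) fun j _ => hT₂f i j
  have hcard : ({P : ι → ℤ[X] | (∀ i, P i ∈ S i) ∧
      ¬ ((∀ i, P i ∈ generic (q ^ w i)) ∧ (∀ i j, i ≠ j → rootField (P i) ≠ rootField (P j)) ∧
        ∀ i, ¬ rootField (P i) ≤ L)}.ncard : ℝ) ≤
      ∑ i, (((T₁ i).ncard : ℝ) + ∑ j, ((T₂ i j).ncard : ℝ)) := by
    have h1 : {P : ι → ℤ[X] | (∀ i, P i ∈ S i) ∧
        ¬ ((∀ i, P i ∈ generic (q ^ w i)) ∧ (∀ i j, i ≠ j → rootField (P i) ≠ rootField (P j)) ∧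
          ∀ i, ¬ rootField (P i) ≤ L)}.ncard ≤
        ∑ i, ((T₁ i).ncard + ∑ j, (T₂ i j).ncard) := by
      refine (Set.ncard_le_ncard hsub ?_).trans ((Finset.set_ncard_biUnion_le _ _).trans ?_)
      · exact Set.Finite.biUnion (Finset.finite_toSet _) fun i _ => (hT₁f i).union (hUf i)
      · refine Finset.sum_le_sum fun i _ => ?_
        refine (Set.ncard_union_le _ _).trans (Nat.add_le_add_left ?_ _)
        exact Finset.set_ncard_biUnion_le _ _
    exact_mod_cast h1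
  rw [hOprod]
  refine hcard.trans ?_
  have hPO : 0 ≤ ∏ i, (O i : ℝ) := Finset.prod_nonneg fun i _ => Nat.cast_nonneg _
  calc ∑ i, (((T₁ i).ncard : ℝ) + ∑ j, ((T₂ i j).ncard : ℝ))
      ≤ ∑ i, ((C₁ i * w i * η) * (∏ i, κ i) * ∏ i, (O i : ℝ) +
          ∑ _j : ι, (w i / c i * η) * (∏ i, κ i) * ∏ i, (O i : ℝ)) :=
        Finset.sum_le_sum fun i _ => add_le_add (hT₁ i) (Finset.sum_le_sum fun j _ => hT₂ i j)
    _ = (∑ i, (C₁ i * w i + ∑ _j : ι, w i / c i)) * (∏ i, κ i) * η * ∏ i, (O i : ℝ) := by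
        rw [Finset.sum_mul, Finset.sum_mul, Finset.sum_mul]
        refine Finset.sum_congr rfl fun i _ => ?_
        rw [add_mul, add_mul, add_mul, Finset.sum_mul, Finset.sum_mul, Finset.sum_mul]
        congr 1
        · ring
        · refine Finset.sum_congr rfl fun j _ => ?_
          ring

end Pool.Agent.Lib.MP_021685_agW
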