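import Mathlib
import Pool.Agent.Lib.MP_021685_agG.RelC

/-!
# Weil polynomials with the largest possible Galois group are generic
-/

set_option autoImplicit false

open Polynomial Pool.Agent.Lib.MP_021685_ag Pool.Agent.Lib.MP_021685_agD
  Pool.Agent.Lib.MP_021685_agG

open scoped Nat

namespace Pool.Agent.Lib.MP_021685_agW

/-- The number of the permutations which commute with a fixed point free involution. -/
theorem card_centralizer {α : Type*} [Fintype α] [DecidableEq α] {g : ℕ}
    (hg : g ≠ 0) (hcard : Fintype.card α = 2 * g) (τ : Equiv.Perm α) (h1 : ∀ x, τ (τ x) = x)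
    (h2 : ∀ x, τ x ≠ x) : Nat.card (Subgroup.centralizer {τ}) = 2 ^ g * g ! := by
  have hne : τ ≠ 1 := by
    rintro rfl
    have : 0 < Fintype.card α := by omega
    obtain ⟨x⟩ := Fintype.card_pos_iff.1 this
    exact h2 x rfl
  have hord : orderOf τ = 2 := by
    refine orderOf_eq_prime ?_ hne
    ext x
    rw [pow_two, Equiv.Perm.mul_apply, h1, Equiv.Perm.one_apply]
  obtain ⟨n, hn⟩ := Equiv.Perm.cycleType_prime_order (σ := τ) (by rw [hord]; exact Nat.prime_two)
  rw [hord] at hn
  have hsupp : τ.support = Finset.univ := by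
    ext x
    simp only [Equiv.Perm.mem_support, Finset.mem_univ, iff_true]
    exact h2 x
  have hsum : τ.cycleType.sum = 2 * g := by
    rw [Equiv.Perm.sum_cycleType, hsupp, Finset.card_univ, hcard]
  have hng : n + 1 = g := by
    rw [hn, Multiset.sum_replicate, smul_eq_mul] at hsum
    omega
  rw [Equiv.Perm.nat_card_centralizer, hsum, hcard, Nat.sub_self, Nat.factorial_zero, one_mul, hn,
    hng, Multiset.prod_replicate, Multiset.toFinset_replicate, if_neg hg, Finset.prod_singleton,
    Multiset.count_replicate_self]

/-- An irreducible `q`-Weil polynomial of degree `2 * g` whose Galois group has the largest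
possible order `2 ^ g * g !` is generic, except if `g = 1` and the roots are `√q` times a root of
unity. -/
theorem generic_of_full {q g : ℕ} (hq : q ≠ 0) (hg : g ≠ 0) {P : ℤ[X]} (hP : P ∈ weilPolys g q)
    (hirr : Irreducible P) (hfull : Module.finrank ℚ (rootField P) = 2 ^ g * g !)
    (h1 : g = 1 → ∀ z : ℂ, aeval z P = 0 → ∀ n : ℕ, n ≠ 0 → z ^ (2 * n) ≠ (q : ℂ) ^ n) :
    P ∈ generic q := by
  classical
  have hmon : P.Monic := hP.1
  have hspl := rootField_splitting hmon
  have hfin := rootField_finite hmon
  have hnormal := rootField_normal hmon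
  have hgal : IsGalois ℚ (rootField P) := isGalois_iff.2 ⟨inferInstance, hnormal⟩
  have hirrQ : Irreducible (P.map (Int.castRingHom ℚ)) :=
    (IsPrimitive.Int.irreducible_iff_irreducible_map_cast hmon.isPrimitive).1 hirr
  set R : ℚ[X] := P.map (Int.castRingHom ℚ) with hR
  have hRmon : R.Monic := hmon.map _
  have hsep : R.Separable := hirrQ.separable
  let L : Type := rootField P
  let e : rootField P →ₐ[ℚ] ℂ := (rootField P).val
  have hW : ∀ z : ℂ, aeval z R = 0 → ‖z‖ ^ 2 = q := by
    intro z hz
    rw [hR, aeval_map_int] at hz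
    exact hP.2.2.2 z hz
  have hq0 : ((q : ℕ) : rootField P) ≠ 0 := by exact_mod_cast hq
  have hne : ∀ x ∈ R.rootSet (rootField P), x ≠ 0 := fun x hx => root_ne_zero hq hW e hx
  have hmin : ∀ x ∈ R.rootSet (rootField P), minpoly ℚ x = R := fun x hx =>
    (minpoly.eq_of_irreducible_of_monic hirrQ (mem_rootSet.1 hx).2 hRmon).symm
  have hdeg : R.natDegree = 2 * g := by rw [hR, hmon.natDegree_map, hP.2.1]
  have hcard : Fintype.card (R.rootSet (rootField P)) = 2 * g := by
    rw [card_rootSet_eq_natDegree hsep hspl.splits, hdeg]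
  -- no fixed points
  have hfix : ∀ x ∈ R.rootSet (rootField P), (q : rootField P) / x ≠ x := by
    intro x hx hqx
    have hx0 := hne x hx
    have h2 : x ^ 2 = q := by
      rw [div_eq_iff hx0] at hqx
      rw [pow_two, hqx]
    by_cases hg1 : g = 1
    · refine h1 hg1 (x : ℂ) ?_ 1 one_ne_zero ?_
      · rw [← aeval_map_int, ← hR]
        have h3 : aeval (e x) R = e (aeval x R) := aeval_algHom_apply e x R
        have h4 : aeval (e x) R = 0 := by rw [h3, (mem_rootSet.1 hx).2, map_zero]
        exact h4
      · rw [mul_one, pow_one]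
        have h3 := congrArg (fun y : rootField P => (y : ℂ)) h2
        simpa using h3
    · have h3 : R ∣ X ^ 2 - C (q : ℚ) := by
        rw [← hmin x hx]
        apply minpoly.dvd
        rw [map_sub, map_pow, aeval_X, aeval_C, h2, map_natCast, sub_self]
      have h4 : R.natDegree ≤ 2 := by
        refine (natDegree_le_of_dvd h3 (X_pow_sub_C_ne_zero two_pos _)).trans ?_
        rw [natDegree_X_pow_sub_C]
      omega
  -- the involution
  let bar : R.rootSet (rootField P) → R.rootSet (rootField P) := fun x =>
    ⟨(q : rootField P) / x, div_mem_rootSet hRmon.ne_zero hq hW e x.2⟩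
  have hbb : ∀ x, bar (bar x) = x := by
    intro x
    apply Subtype.ext
    change (q : rootField P) / ((q : rootField P) / x) = x
    rw [div_div_cancel₀ hq0]
  let τ : Equiv.Perm (R.rootSet (rootField P)) := Function.Involutive.toPerm bar hbb
  have hτ : ∀ x, τ x = bar x := fun x => rfl
  have hcent := card_centralizer hg hcard τ (fun x => hbb x) (fun x h => hfix x x.2
    (congrArg Subtype.val h))
  -- the action of the Galois group on the roots
  let act₀ : (rootField P ≃ₐ[ℚ] rootField P) →* Function.End (R.rootSet (rootField P)) :=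
    { toFun := fun σ x => ⟨σ x, map_rootSet σ x.2⟩
      map_one' := rfl
      map_mul' := fun σ σ' => rfl }
  let act : (rootField P ≃ₐ[ℚ] rootField P) →* Equiv.Perm (R.rootSet (rootField P)) :=
    act₀.toHomPerm
  have hact : ∀ σ x, ((act σ x : R.rootSet (rootField P)) : rootField P) = σ x := fun σ x => rfl
  have hactinj : Function.Injective act := by
    rw [injective_iff_map_eq_one]
    intro σ hσ
    have h2 : (σ : rootField P →ₐ[ℚ] rootField P) = AlgHom.id ℚ (rootField P) := by
      refine AlgHom.ext_of_adjoin_eq_top hspl.adjoin_rootSet ?_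
      intro x hx
      have h3 := congrArg (fun f : Equiv.Perm (R.rootSet (rootField P)) =>
        ((f ⟨x, hx⟩ : R.rootSet (rootField P)) : rootField P)) hσ
      exact h3
    ext x
    exact congrArg (fun y : rootField P => (y : ℂ)) (AlgHom.congr_fun h2 x)
  have hle : act.range ≤ Subgroup.centralizer {τ} := by
    rintro _ ⟨σ, rfl⟩
    rw [Subgroup.mem_centralizer_singleton_iff]
    ext1 x
    apply Subtype.ext
    change σ ((q : rootField P) / x) = (q : rootField P) / σ x
    rw [map_div₀, map_natCast]
  have hcardG : Nat.card act.range = 2 ^ g * g ! := by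
    rw [← hfull, ← IsGalois.card_aut_eq_finrank, Nat.card_congr (MonoidHom.ofInjective hactinj).toEquiv]
  have hrange : act.range = Subgroup.centralizer {τ} := by
    apply Subgroup.eq_of_le_of_card_ge hle
    rw [hcent, hcardG]
  have hsign : ∀ x ∈ R.rootSet (rootField P), ∃ σ, SignChange q R x σ := by
    intro x hx
    have h2 : Equiv.swap ⟨x, hx⟩ (τ ⟨x, hx⟩) ∈ Subgroup.centralizer {τ} := by
      rw [Subgroup.mem_centralizer_singleton_iff]
      rw [Equiv.mul_swap_eq_swap_mul, hτ, hτ, hbb, Equiv.swap_comm]
    rw [← hrange] at h2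
    obtain ⟨σ, hσ⟩ := h2
    have h3 : ∀ y : R.rootSet (rootField P), σ y = Equiv.swap ⟨x, hx⟩ (τ ⟨x, hx⟩) y := by
      intro y
      rw [← hact, hσ]
    have h4 : σ x = (q : rootField P) / x := by
      have := h3 ⟨x, hx⟩
      rw [Equiv.swap_apply_left] at this
      exact this
    refine ⟨σ, ?_, ?_, ?_⟩
    · rw [h4, mul_div_cancel₀ _ (hne x hx)]
    · rw [h4]
      exact hfix x hx
    · intro y hy hyx hxy
      have h5 := h3 ⟨y, hy⟩
      rw [Equiv.swap_apply_of_ne_of_ne] at h5
      · exact h5
      · exact fun h => hyx (congrArg Subtype.val h)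
      · intro h
        apply hxy
        have h6 : y = (q : rootField P) / x := congrArg Subtype.val h
        rw [h6, mul_div_cancel₀ _ (hne x hx)]
  refine ⟨⟨g, hg, hP⟩, hirr, fun z hz => ?_⟩
  have hzR : z ∈ R.rootSet (rootField P) := by
    rw [mem_rootSet]
    refine ⟨hRmon.ne_zero, ?_⟩
    apply e.toRingHom.injective
    have h3 : aeval (e z) R = e (aeval z R) := aeval_algHom_apply e z R
    have h4 : aeval (z : ℂ) R = 0 := by rw [hR, aeval_map_int]; exact hz
    change e (aeval z R) = e 0
    rw [← h3, map_zero]
    exact h4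
  obtain ⟨σ, hσ⟩ := hsign z hzR
  constructor
  · intro n hn
    by_cases hg1 : g = 1
    · exact h1 hg1 z hz n hn
    · obtain ⟨y, hy, hyz, hzy⟩ : ∃ y ∈ R.rootSet (rootField P), y ≠ z ∧ z * y ≠ q := by
        by_contra hcon
        push Not at hcon
        have h5 : (R.rootSet (rootField P)).ncard ≤
            ({z, (q : rootField P) / z} : Set (rootField P)).ncard := by
          apply Set.ncard_le_ncard _ (Set.toFinite _)
          intro y hy
          by_cases hyx : y = z
          · left; exact hyx
          · right
            rw [Set.mem_singleton_iff, eq_div_iff (hne z hzR), mul_comm]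
            exact hcon y hy hyx
        have h6 : ({z, (q : rootField P) / z} : Set (rootField P)).ncard ≤ 2 := by
          refine (Set.ncard_insert_le _ _).trans ?_
          rw [Set.ncard_singleton]
        have h7 : (R.rootSet (rootField P)).ncard = 2 * g := by
          rw [← hcard, ← Nat.card_eq_fintype_card, Nat.card_coe_set_eq]
        omega
      obtain ⟨ρ, hρ⟩ := isConjRoot_iff_exists_algEquiv.1
        (show IsConjRoot ℚ y z from (hmin y hy).trans (hmin z hzR).symm)
      have h8 := notUnity_of_signChange hq (hne z hzR) hσ hy hyz hzy hρ n hn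
      intro h9
      apply h8
      apply Subtype.ext
      simpa using h9
  · refine ⟨σ, ?_, ?_⟩
    · have h5 := congrArg (fun y : rootField P => (y : ℂ)) hσ.1
      simpa using h5
    · intro w hw hwz hzw
      refine hσ.2.2 w ?_ hwz ?_
      · rw [mem_rootSet]
        refine ⟨hRmon.ne_zero, ?_⟩
        apply e.toRingHom.injective
        have h3 : aeval (e w) R = e (aeval w R) := aeval_algHom_apply e w R
        have h4 : aeval (w : ℂ) R = 0 := by rw [hR, aeval_map_int]; exact hw
        change e (aeval w R) = e 0
        rw [← h3, map_zero]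
        exact h4
      · intro h5
        apply hzw
        have h6 := congrArg (fun y : rootField P => (y : ℂ)) h5
        simpa using h6

end Pool.Agent.Lib.MP_021685_agW
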